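import Pool.Agent.Helper48.CXT.TS
import Pool.Agent.Helper94.CXT.UT3
import Pool.Agent.Helper94.CXF.S12

/-!
Far cells of tail classes: quadratic functions of interpolated vectors.
-/

set_option autoImplicit false
set_option exponentiation.threshold 4000
noncomputable section
namespace Pool.Agent.Helper48.CXT

open Pool.Agent.Helper86.CX renaming Hm → Hm, ev → hev
open Pool.Agent.Helper94.CXF (M9)
open Pool.Agent.Helper94.CXF
open Pool.Agent.Helper94.CXF.SD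
open Complex ComplexConjugate

/-! ### norms -/

theorem nr_hev (x : Fin 3 → ℂ) : nr x = hev (GR.idH 1) x := by
  rw [hev_idH, one_mul]

theorem nr_cvx (t : ℝ) (a b : Fin 3 → ℂ) :
    nr (((1 - t : ℝ) : ℂ) • a + ((t : ℝ) : ℂ) • b) =
      (1 - t) * nr a + t * nr b - t * (1 - t) * nr (b - a) := by
  rw [nr_hev, nr_hev, nr_hev, nr_hev, Pool.Agent.Helper94.CXT.cvx]

/-- linear interpolation of vectors -/
def iv (t : ℝ) (f : Bool → Fin 3 → ℂ) : Fin 3 → ℂ :=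
  ((1 - t : ℝ) : ℂ) • f false + ((t : ℝ) : ℂ) • f true

theorem iv_sub (t : ℝ) (f g : Bool → Fin 3 → ℂ) :
    iv t f - iv t g = iv t fun c => f c - g c := by
  simp only [iv, smul_sub]
  abel

theorem nr_iv {t B : ℝ} (ht : I01 t) {f : Bool → Fin 3 → ℂ} (h : ∀ c, nr (f c) ≤ B) :
    nr (iv t f) ≤ B := by
  rw [iv, nr_cvx]
  have h1 : 0 ≤ t * (1 - t) * nr (f true - f false) :=
    mul_nonneg (mul_nonneg ht.1 (by linarith [ht.2])) (nr_nonneg _)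
  have h2 := mul_le_mul_of_nonneg_left (h false) (show 0 ≤ 1 - t by linarith [ht.2])
  have h3 := mul_le_mul_of_nonneg_left (h true) ht.1
  linarith

/-- one direction -/
theorem hev_iv {K : Hm ℝ} {la m D t : ℝ} (hl : ∀ v, hev K v ≤ la * nr v) (l0 : 0 ≤ la)
    (ht : I01 t) {f : Bool → Fin 3 → ℂ} (h : ∀ c, m ≤ hev K (f c))
    (hd : nr (f true - f false) ≤ D) : m - la * D / 4 ≤ hev K (iv t f) := by
  rw [iv, Pool.Agent.Helper94.CXT.cvx]
  have h2 := mul_le_mul_of_nonneg_left (h false) (show 0 ≤ 1 - t by linarith [ht.2])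
  have h3 := mul_le_mul_of_nonneg_left (h true) ht.1
  have h4 : hev K (f true - f false) ≤ la * D :=
    (hl _).trans (mul_le_mul_of_nonneg_left hd l0)
  have D0 : 0 ≤ la * D := mul_nonneg l0 ((nr_nonneg _).trans hd)
  have h5 : 0 ≤ t * (1 - t) := mul_nonneg ht.1 (by linarith [ht.2])
  have h6 : t * (1 - t) ≤ 1 / 4 := by nlinarith [sq_nonneg (t - 1 / 2)]
  have h7 : t * (1 - t) * hev K (f true - f false) ≤ 1 / 4 * (la * D) := by
    calc t * (1 - t) * hev K (f true - f false) ≤ t * (1 - t) * (la * D) :=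
          mul_le_mul_of_nonneg_left h4 h5
      _ ≤ 1 / 4 * (la * D) := mul_le_mul_of_nonneg_right h6 D0
  linarith

/-- three directions -/
theorem hev_iv3 {K : Hm ℝ} {la m D1 D2 D3 t1 t2 t3 : ℝ} (hl : ∀ v, hev K v ≤ la * nr v)
    (l0 : 0 ≤ la) (h1 : I01 t1) (h2 : I01 t2) (h3 : I01 t3)
    {y : Bool → Bool → Bool → Fin 3 → ℂ} (h : ∀ c1 c2 c3, m ≤ hev K (y c1 c2 c3))
    (d1 : ∀ c2 c3, nr (y true c2 c3 - y false c2 c3) ≤ D1)
    (d2 : ∀ c1 c3, nr (y c1 true c3 - y c1 false c3) ≤ D2)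
    (d3 : ∀ c1 c2, nr (y c1 c2 true - y c1 c2 false) ≤ D3) :
    m - la * (D1 + D2 + D3) / 4 ≤
      hev K (iv t1 fun c1 => iv t2 fun c2 => iv t3 fun c3 => y c1 c2 c3) := by
  have a3 : ∀ c1 c2, m - la * D3 / 4 ≤ hev K (iv t3 fun c3 => y c1 c2 c3) := fun c1 c2 =>
    hev_iv hl l0 h3 (fun c3 => h c1 c2 c3) (d3 c1 c2)
  have a2 : ∀ c1, m - la * D3 / 4 - la * D2 / 4 ≤
      hev K (iv t2 fun c2 => iv t3 fun c3 => y c1 c2 c3) := fun c1 =>
    hev_iv hl l0 h2 (fun c2 => a3 c1 c2) (by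
      rw [iv_sub]
      exact nr_iv h3 fun c3 => d2 c1 c3)
  have a1 := hev_iv (D := D1) hl l0 h1 (f := fun c1 => iv t2 fun c2 => iv t3 fun c3 => y c1 c2 c3)
    a2 (by
      rw [iv_sub]
      refine nr_iv h2 fun c2 => ?_
      rw [iv_sub]
      exact nr_iv h3 fun c3 => d1 c2 c3)
  have e : m - la * (D1 + D2 + D3) / 4 = m - la * D3 / 4 - la * D2 / 4 - la * D1 / 4 := by ring
  rw [e]
  exact a1

theorem nr_iv3 {t1 t2 t3 B : ℝ} (h1 : I01 t1) (h2 : I01 t2) (h3 : I01 t3)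
    {y : Bool → Bool → Bool → Fin 3 → ℂ} (h : ∀ c1 c2 c3, nr (y c1 c2 c3) ≤ B) :
    nr (iv t1 fun c1 => iv t2 fun c2 => iv t3 fun c3 => y c1 c2 c3) ≤ B :=
  nr_iv h1 fun c1 => nr_iv h2 fun c2 => nr_iv h3 fun c3 => h c1 c2 c3

/-! ### polar form -/

def pl2 (K : Hm ℝ) (y z : Fin 3 → ℂ) : ℝ := (sq2 (GR.hR K) (GR.hJ K) y z).re

theorem hev_line (K : Hm ℝ) (t : ℝ) (y z : Fin 3 → ℂ) :
    hev K (y + (t : ℂ) • z) = hev K y + 2 * t * pl2 K y z + t ^ 2 * hev K z := by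
  rw [hev_add, re_ofReal_mul, normSq_ofReal, pl2]
  ring

theorem nr_line (t : ℝ) (y z : Fin 3 → ℂ) :
    nr (y + (t : ℂ) • z) = nr y + 2 * t * pl2 (GR.idH 1) y z + t ^ 2 * nr z := by
  rw [nr_hev, nr_hev, nr_hev, hev_line]

theorem pl2_sq {K : Hm ℝ} {ka : ℝ} (hk : ∀ v, |hev K v| ≤ ka * nr v) (y z : Fin 3 → ℂ) :
    pl2 K y z ^ 2 ≤ ka ^ 2 * (nr y * nr z) := by
  have key : ∀ t : ℝ, 0 ≤ (2 * ka * nr z) * (t * t) + (-4 * pl2 K y z) * t + 2 * ka * nr y := by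
    intro t
    have a := (abs_le.1 (hk (y + (t : ℂ) • z))).2
    have b := (abs_le.1 (hk (y + ((-t : ℝ) : ℂ) • z))).1
    rw [hev_line, nr_line] at a b
    nlinarith
  have h := discrim_le_zero key
  rw [discrim] at h
  nlinarith

/-- perturbation -/
theorem hev_pert {K : Hm ℝ} {ka N Y D : ℝ} (hk : ∀ v, |hev K v| ≤ ka * nr v) (k0 : 0 ≤ ka)
    (N0 : 0 ≤ N) (Y0 : 0 ≤ Y) (D0 : 0 ≤ D) {w r : Fin 3 → ℂ} (hw : nr w ≤ Y ^ 2 * N)
    (hr : nr r ≤ D ^ 2 * N) : hev K w - ka * (D * (2 * Y + D)) * N ≤ hev K (w + r) := by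
  have e : hev K (w + r) = hev K w + 2 * pl2 K w r + hev K r := by
    have := hev_line K 1 w r
    rw [ofReal_one, one_smul] at this
    rw [this]; ring
  have h1 : pl2 K w r ^ 2 ≤ (ka * (Y * D) * N) ^ 2 := by
    refine (pl2_sq hk w r).trans ?_
    have : nr w * nr r ≤ (Y ^ 2 * N) * (D ^ 2 * N) :=
      mul_le_mul hw hr (nr_nonneg _) (by positivity)
    calc ka ^ 2 * (nr w * nr r) ≤ ka ^ 2 * ((Y ^ 2 * N) * (D ^ 2 * N)) :=
          mul_le_mul_of_nonneg_left this (sq_nonneg _)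
      _ = (ka * (Y * D) * N) ^ 2 := by ring
  have h2 := (abs_le.1 (abs_le_of_sq_le_sq h1 (by positivity))).1
  have h3 := (abs_le.1 (hk r)).1
  have h4 := mul_le_mul_of_nonneg_left hr k0
  rw [e]
  nlinarith

/-! ### matrices -/

theorem cs3 (a b c : ℝ) (x y z : ℂ) : normSq (a * x + b * y + c * z) ≤
    (a * a + b * b + c * c) * (normSq x + normSq y + normSq z) := by
  simp only [normSq_apply, add_re, add_im, re_ofReal_mul, im_ofReal_mul]
  nlinarith [sq_nonneg (a * y.re - b * x.re), sq_nonneg (a * y.im - b * x.im),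
    sq_nonneg (a * z.re - c * x.re), sq_nonneg (a * z.im - c * x.im),
    sq_nonneg (b * z.re - c * y.re), sq_nonneg (b * z.im - c * y.im)]

theorem nr_ap1 (T : M9 ℝ) (x : Fin 3 → ℂ) : nr (ap1 T x) ≤ GR.sqM T * nr x := by
  have a0 := cs3 T.a T.b T.c (x 0) (x 1) (x 2)
  have a1 := cs3 T.d T.e T.f (x 0) (x 1) (x 2)
  have a2 := cs3 T.g T.h T.i (x 0) (x 1) (x 2)
  rw [nr, ap1_0, ap1_1, ap1_2]
  have e : GR.sqM T * nr x =
      (T.a * T.a + T.b * T.b + T.c * T.c) * (normSq (x 0) + normSq (x 1) + normSq (x 2)) +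
      (T.d * T.d + T.e * T.e + T.f * T.f) * (normSq (x 0) + normSq (x 1) + normSq (x 2)) +
      (T.g * T.g + T.h * T.h + T.i * T.i) * (normSq (x 0) + normSq (x 1) + normSq (x 2)) := by
    rw [nr, GR.sqM]; ring
  rw [e]
  linarith

theorem ap1_cm1 (c d : ℝ) (S T : M9 ℝ) (x : Fin 3 → ℂ) :
    ap1 (cm1 c S d T) x = (c : ℂ) • ap1 S x + (d : ℂ) • ap1 T x := by
  funext j
  fin_cases j
  · change ap1 (cm1 c S d T) x 0 = (c : ℂ) * ap1 S x 0 + (d : ℂ) * ap1 T x 0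
    rw [ap1_0, ap1_0, ap1_0]; simp only [cm1]; push_cast; ring
  · change ap1 (cm1 c S d T) x 1 = (c : ℂ) * ap1 S x 1 + (d : ℂ) * ap1 T x 1
    rw [ap1_1, ap1_1, ap1_1]; simp only [cm1]; push_cast; ring
  · change ap1 (cm1 c S d T) x 2 = (c : ℂ) * ap1 S x 2 + (d : ℂ) * ap1 T x 2
    rw [ap1_2, ap1_2, ap1_2]; simp only [cm1]; push_cast; ring

theorem ap1_it1 (t : ℝ) (Z : Bool → P9) (x : Fin 3 → ℂ) :
    ap1 (it1 t Z).1 x = iv t fun c => ap1 (Z c).1 x := by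
  rw [it1, cmb, ap1_cm1, iv]

theorem ap1_it3 (t1 t2 t3 : ℝ) (Z : Bool → Bool → Bool → P9) (x : Fin 3 → ℂ) :
    ap1 (it3 t1 t2 t3 Z).1 x =
      iv t1 fun c1 => iv t2 fun c2 => iv t3 fun c3 => ap1 (Z c1 c2 c3).1 x := by
  simp only [it3, ap1_it1]

end Pool.Agent.Helper48.CXT
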