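import Pool.Agent.Helper48.CXT.AQ

/-!
Far cells of tail classes: one run of two, orientation `-` (`leafA`).
-/

set_option autoImplicit false
set_option exponentiation.threshold 4000
noncomputable section
namespace Pool.Agent.Helper48.CXT

open Pool.Agent.Helper86.CX renaming Hm → Hm, ev → hev
open Pool.Agent.Helper94.CXF (M9)
open Pool.Agent.Helper94.CXF
open Pool.Agent.Helper94.CXF.SD
open Pool.Agent.Helper94.CXT (lev_sound cor_sound)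
open Complex ComplexConjugate

/-! ### bounds of forms -/

theorem ble_mod {A B : ℕ} {v : ℤ} (h : Nat.ble (Nat.mod A KN.MM) B = true) (hv : Rp A v)
    (h0 : 0 ≤ v) (h1 : v < 2 ^ 1152) : v ≤ B := by
  have h2 : A % KN.MM ≤ B := Nat.le_of_ble_eq_true h
  have h3 : ((A % KN.MM : ℕ) : ℤ) = v := hv.mod_eq MM_pos h0 (by rw [MM_eq]; exact_mod_cast h1)
  have h4 : ((A % KN.MM : ℕ) : ℤ) ≤ B := by exact_mod_cast h2
  rw [h3] at h4
  exact h4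

theorem frH_rep {K : Hm ℕ} {Kz : Hm ℤ} (h : RH K Kz) : Rp (KT.frH K) (frz Kz) := by
  have e : frz Kz = (Kz.a * Kz.a + (Kz.b * Kz.b + Kz.c * Kz.c)) +
      ((2 : ℕ) : ℤ) * ((Kz.d * Kz.d + (Kz.e * Kz.e + (Kz.f * Kz.f + Kz.g * Kz.g))) +
        (Kz.h * Kz.h + Kz.i * Kz.i)) := by
    rw [frz]; push_cast; ring
  rw [e]
  exact ((h.a.mul h.a).add ((h.b.mul h.b).add (h.c.mul h.c))).add
    ((Pool.Agent.Helper17.PAK.Rep.nat KN.MM 2).mul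
      (((h.d.mul h.d).add ((h.e.mul h.e).add ((h.f.mul h.f).add (h.g.mul h.g)))).add
        ((h.h.mul h.h).add (h.i.mul h.i))))

theorem frz_nonneg (K : Hm ℤ) : 0 ≤ frz K := by
  rw [frz]
  linarith [mul_self_nonneg K.a, mul_self_nonneg K.b, mul_self_nonneg K.c, mul_self_nonneg K.d,
    mul_self_nonneg K.e, mul_self_nonneg K.f, mul_self_nonneg K.g, mul_self_nonneg K.h,
    mul_self_nonneg K.i]

theorem frz_lt {K : Hm ℤ} {b : ℤ} (h : BH b K) (hb : 15 * (b * b) < 2 ^ 1152) :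
    frz K < 2 ^ 1152 := by
  refine lt_of_le_of_lt ?_ hb
  rw [frz]
  linarith [sqz h.a, sqz h.b, sqz h.c, sqz h.d, sqz h.e, sqz h.f, sqz h.g, sqz h.h, sqz h.i]

/-- the Frobenius norm bounds the form -/
theorem hev_frz {K : Hm ℤ} {k : ℝ} (k0 : 0 ≤ k) (h : (frz K : ℝ) ≤ k ^ 2) (x : Fin 3 → ℂ) :
    |hev (rH K) x| ≤ k * nr x := by
  have h1 := sq2_le (GR.hR (rH K)) (GR.hJ (rH K)) x
  have e : GR.sqM (GR.hR (rH K)) + GR.sqM (GR.hJ (rH K)) = (frz K : ℝ) := by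
    simp only [GR.sqM, GR.hR, GR.hJ, rH, GR.mpH, cI_apply, frz]
    push_cast
    ring
  rw [e] at h1
  rw [hev_sq2]
  refine (Complex.abs_re_le_norm _).trans ?_
  refine le_of_sq_le_sq (h1.trans ?_) (mul_nonneg k0 (nr_nonneg x))
  rw [mul_pow]
  exact mul_le_mul_of_nonneg_right h (sq_nonneg _)

/-- `l - K` -/
def lmz (l : ℤ) (K : Hm ℤ) : Hm ℤ :=
  ⟨l + -K.a, l + -K.b, l + -K.c, -K.d, -K.e, -K.f, -K.g, -K.h, -K.i⟩

theorem lmK_rep {l : ℕ} {K : Hm ℕ} {Kz : Hm ℤ} (h : RH K Kz) :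
    RH (KT.lmK l K) (lmz l Kz) := by
  have hl := Pool.Agent.Helper17.PAK.Rep.nat KN.MM l
  exact ⟨hl.add (rp_nm h.a), hl.add (rp_nm h.b), hl.add (rp_nm h.c), rp_nm h.d, rp_nm h.e,
    rp_nm h.f, rp_nm h.g, rp_nm h.h, rp_nm h.i⟩

theorem hev_lmz (l : ℤ) (K : Hm ℤ) (x : Fin 3 → ℂ) :
    hev (rH (lmz l K)) x = l * nr x - hev (rH K) x := by
  simp only [hev, rH, GR.mpH, cI_apply, lmz, nr]
  push_cast
  simp [normSq_apply]
  ring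

theorem lmz_bd {l b : ℤ} {K : Hm ℤ} (h : BH b K) (hl : |l| ≤ 2 ^ 100) (hb : b ≤ 2 ^ 100) :
    BH (2 ^ 256) (lmz l K) := by
  have k : ∀ z : ℤ, |z| ≤ b → |l + -z| ≤ 2 ^ 256 := by
    intro z hz
    have h1 := abs_le.1 hl
    have h2 := abs_le.1 (hz.trans hb)
    exact abs_le.2 ⟨by linarith [show (2 : ℤ) ^ 100 + 2 ^ 100 ≤ 2 ^ 256 by norm_num],
      by linarith [show (2 : ℤ) ^ 100 + 2 ^ 100 ≤ 2 ^ 256 by norm_num]⟩
  have m : ∀ z : ℤ, |z| ≤ b → |-z| ≤ 2 ^ 256 := by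
    intro z hz
    rw [abs_neg]
    exact (hz.trans hb).trans (by norm_num)
  exact ⟨k _ h.a, k _ h.b, k _ h.c, m _ h.d, m _ h.e, m _ h.f, m _ h.g, m _ h.h, m _ h.i⟩

theorem lmK_sound {l : ℕ} {K : Hm ℕ} {Kz : Hm ℤ} {b : ℤ} (h : RH K Kz) (hb : BH b Kz)
    (b1 : b ≤ 2 ^ 100) (hl : l ≤ 2 ^ 100) (hp : KN.psd (KT.lmK l K) = true) (x : Fin 3 → ℂ) :
    hev (rH Kz) x ≤ l * nr x := by
  have hl' : |(l : ℤ)| ≤ 2 ^ 100 := by
    rw [abs_of_nonneg (by positivity)]; exact_mod_cast hl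
  have h1 := PDz_hev (psd_sound (lmK_rep (l := l) h) (lmz_bd hb hl' b1) hp) x
  rw [hev_lmz] at h1
  push_cast at h1
  linarith

theorem o28_eq : KT.o28 = 2 ^ 28 := by decide +kernel
theorem o40_eq : KT.o40 = 2 ^ 40 := by decide +kernel
theorem o20_eq : KT.o20 = 2 ^ 20 := by decide +kernel

/-- a form of a state -/
structure OkK (K : ℕ) : Prop where
  ng : NegS (rH (decz K))
  l : KT.lam K ≤ 2 ^ 28
  fr : frz (decz K) ≤ ((KT.o20 : ℕ) : ℤ) ^ 2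
  la : ∀ x, hev (rH (decz K)) x ≤ KT.lam K * nr x

theorem okK_sound {K : ℕ} (h : KT.okK K = true) : OkK K := by
  unfold KT.okK at h
  simp only [andB_iff] at h
  obtain ⟨⟨h1, h2⟩, h3, h4⟩ := h
  have l28 : KT.lam K ≤ 2 ^ 28 := by
    rw [← o28_eq]; exact Nat.le_of_ble_eq_true h2
  refine ⟨ngs_sound (dec_rep K) (dec_bd K) h1, l28, ?_,
    lmK_sound (dec_rep K) (dec_bd K) (by norm_num) (l28.trans (by norm_num)) h4⟩
  have h5 := ble_mod h3 (frH_rep (dec_rep K)) (frz_nonneg _)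
    (frz_lt (dec_bd K) (by norm_num))
  rw [o40_eq] at h5
  rw [o20_eq]
  push_cast at h5 ⊢
  linarith

/-- `8 A + B` -/
def a8z (A B : Hm ℤ) : Hm ℤ := GR.adH (GR.smH 8 A) B

theorem a8_rep {A B : Hm ℕ} {Az Bz : Hm ℤ} (a : RH A Az) (b : RH B Bz) :
    RH (KT.a8 A B) (a8z Az Bz) := by
  have h8 := Pool.Agent.Helper17.PAK.Rep.nat KN.MM 8
  exact ⟨(h8.mul a.a).add b.a, (h8.mul a.b).add b.b, (h8.mul a.c).add b.c, (h8.mul a.d).add b.d,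
    (h8.mul a.e).add b.e, (h8.mul a.f).add b.f, (h8.mul a.g).add b.g, (h8.mul a.h).add b.h,
    (h8.mul a.i).add b.i⟩

theorem a8_bd {A B : Hm ℤ} (a : BH (2 ^ 27) A) (b : BH (2 ^ 27) B) : BH (2 ^ 31) (a8z A B) :=
  (adH_bd (smH_bd (r := 8) (by norm_num) a) b).mono (by norm_num)

theorem hev_a8 (A B : Hm ℤ) (x : Fin 3 → ℂ) :
    hev (rH (a8z A B)) x = 8 * hev (rH A) x + hev (rH B) x := by
  rw [a8z, hev_ad, hev_sm']
  push_cast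
  ring

/-- the forms of a loop -/
structure OkL (A B : ℕ) : Prop where
  l : KT.lam A ≤ 2 ^ 28
  k : KT.lam B ≤ 2 ^ 28
  la : ∀ s : ℝ, 0 ≤ s → s ≤ 1 / 8 → ∀ x, hev (lpf A B s) x ≤ KT.lam A * nr x
  ka : ∀ s : ℝ, 0 ≤ s → s ≤ 1 / 8 → ∀ x, |hev (lpf A B s) x| ≤ KT.lam B * nr x

theorem okL_sound {A B : ℕ} (h : KT.okL A B = true) : OkL A B := by
  unfold KT.okL at h
  simp only [andB_iff] at h
  obtain ⟨⟨h1, h2⟩, ⟨h3, h4⟩, h5, h6⟩ := h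
  have lA : KT.lam A ≤ 2 ^ 28 := by
    rw [← o28_eq]; exact Nat.le_of_ble_eq_true h1
  have lB : KT.lam B ≤ 2 ^ 28 := by
    rw [← o28_eq]; exact Nat.le_of_ble_eq_true h2
  have l8 : Nat.mul 8 (KT.lam A) ≤ 2 ^ 100 := by
    have : 8 * KT.lam A ≤ 8 * 2 ^ 28 := Nat.mul_le_mul le_rfl lA
    exact this.trans (by norm_num)
  have e1 := fun x => lmK_sound (dec_rep A) (dec_bd A) (by norm_num) (lA.trans (by norm_num)) h5 x
  have e2 := fun x => lmK_sound (a8_rep (dec_rep A) (dec_rep B)) (a8_bd (dec_bd A) (dec_bd B))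
    (by norm_num) l8 h6 x
  have f1 := ble_mod h3 (frH_rep (dec_rep A)) (frz_nonneg _) (frz_lt (dec_bd A) (by norm_num))
  have f2 := ble_mod h4 (frH_rep (a8_rep (dec_rep A) (dec_rep B))) (frz_nonneg _)
    (frz_lt (a8_bd (dec_bd A) (dec_bd B)) (by norm_num))
  have k0 : (0 : ℝ) ≤ KT.lam B := by positivity
  have g1 : ((frz (decz A) : ℤ) : ℝ) ≤ (KT.lam B : ℝ) ^ 2 := by
    have : ((frz (decz A) : ℤ) : ℝ) ≤ (((Nat.mul (KT.lam B) (KT.lam B) : ℕ) : ℤ) : ℝ) := by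
      exact_mod_cast f1
    refine this.trans (le_of_eq ?_)
    have e : Nat.mul (KT.lam B) (KT.lam B) = KT.lam B * KT.lam B := rfl
    rw [e]
    push_cast
    ring
  have g2 : ((frz (a8z (decz A) (decz B)) : ℤ) : ℝ) ≤ (8 * (KT.lam B : ℝ)) ^ 2 := by
    have : ((frz (a8z (decz A) (decz B)) : ℤ) : ℝ) ≤
        (((Nat.mul 64 (Nat.mul (KT.lam B) (KT.lam B)) : ℕ) : ℤ) : ℝ) := by
      exact_mod_cast f2
    refine this.trans (le_of_eq ?_)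
    have e : Nat.mul 64 (Nat.mul (KT.lam B) (KT.lam B)) = 64 * (KT.lam B * KT.lam B) := rfl
    rw [e]
    push_cast
    ring
  have n1 := hev_frz k0 g1
  have n2 := hev_frz (mul_nonneg (by norm_num) k0) g2
  refine ⟨lA, lB, ?_, ?_⟩
  · intro s s0 s1 x
    rw [hev_lpf]
    have a := e1 x
    have b := e2 x
    rw [hev_a8] at b
    have e : ((Nat.mul 8 (KT.lam A) : ℕ) : ℝ) = 8 * (KT.lam A : ℝ) := by
      have : Nat.mul 8 (KT.lam A) = 8 * KT.lam A := rfl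
      rw [this]; push_cast; ring
    rw [e] at b
    have a' := mul_le_mul_of_nonneg_left a (show 0 ≤ 1 - 8 * s by linarith)
    have b' := mul_le_mul_of_nonneg_left b s0
    clear l8 f1 f2 g1 g2 n1 n2 e1 e2 h1 h2 h3 h4 h5 h6 lA lB
    linarith
  · intro s s0 s1 x
    rw [hev_lpf]
    have a := n1 x
    have b := n2 x
    rw [hev_a8] at b
    rw [abs_le] at a b ⊢
    have h8 : 0 ≤ 1 - 8 * s := by linarith
    have a1 := mul_le_mul_of_nonneg_left a.1 h8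
    have a2 := mul_le_mul_of_nonneg_left a.2 h8
    have b1 := mul_le_mul_of_nonneg_left b.1 s0
    have b2 := mul_le_mul_of_nonneg_left b.2 s0
    clear l8 f1 f2 g1 g2 n1 n2 e1 e2 h1 h2 h3 h4 h5 h6 lA lB
    constructor <;> linarith

/-! ### norms of matrices -/

theorem sq9_rep {A : M9 ℕ} {Z : M9 ℤ} (h : RM A Z) : Rp (KT.sq9 A) (GR.sqM Z) := by
  have h1 := (sR_rep h).add (sB_rep h)
  have e : GR.sqM Z = (Z.a * Z.a + (Z.b * Z.b + (Z.c * Z.c + (Z.d * Z.d + Z.g * Z.g)))) +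
      (Z.e * Z.e + (Z.f * Z.f + (Z.h * Z.h + Z.i * Z.i))) := by
    simp only [GR.sqM]; ring
  rw [e]
  exact h1

theorem f9_sound {T : KT.MP} {Z0 Z1 : M9 ℤ} (h0 : RM T.1 Z0) (h1 : RM T.2 Z1)
    (b0 : BM (2 ^ 60) Z0) (b1 : BM (2 ^ 60) Z1) {d : ℕ} (h : KT.f9 T d = true) :
    9 * (8 * GR.sqM Z0 + GR.sqM Z1) ≤ 64 * ((d : ℤ) * d) := by
  have r := (Pool.Agent.Helper17.PAK.Rep.nat KN.MM 9).mul
    (((Pool.Agent.Helper17.PAK.Rep.nat KN.MM 8).mul (sq9_rep h0)).add (sq9_rep h1))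
  have n0 := sqM_nonneg Z0
  have n1 := sqM_nonneg Z1
  have u0 := sqM_bd b0
  have u1 := sqM_bd b1
  push_cast at r
  have := ble_mod h r (by positivity) (by
    have : (9 : ℤ) * (8 * (9 * (2 ^ 60 * 2 ^ 60)) + 9 * (2 ^ 60 * 2 ^ 60)) < 2 ^ 1152 := by
      norm_num
    linarith)
  refine this.trans (le_of_eq ?_)
  have e : Nat.mul 64 (Nat.mul d d) = 64 * (d * d) := rfl
  rw [e]
  push_cast
  ring

theorem z9M_rep : RM KN.z9M (⟨0, 0, 0, 0, 0, 0, 0, 0, 0⟩ : M9 ℤ) :=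
  ⟨rp_zero, rp_zero, rp_zero, rp_zero, rp_zero, rp_zero, rp_zero, rp_zero, rp_zero⟩
theorem z9M_bd {b : ℤ} (hb : 0 ≤ b) : BM b (⟨0, 0, 0, 0, 0, 0, 0, 0, 0⟩ : M9 ℤ) := by
  have h : |(0 : ℤ)| ≤ b := by simpa using hb
  exact ⟨h, h, h, h, h, h, h, h, h⟩

/-- difference -/
def sbz (A B : M9 ℤ) : M9 ℤ :=
  ⟨A.a - B.a, A.b - B.b, A.c - B.c, A.d - B.d, A.e - B.e, A.f - B.f, A.g - B.g, A.h - B.h,
    A.i - B.i⟩
theorem sbM_rep {A B : M9 ℕ} {Z W : M9 ℤ} (h : RM A Z) (k : RM B W) :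
    RM (KT.sbM A B) (sbz Z W) :=
  ⟨rp_sb h.a k.a, rp_sb h.b k.b, rp_sb h.c k.c, rp_sb h.d k.d, rp_sb h.e k.e, rp_sb h.f k.f,
    rp_sb h.g k.g, rp_sb h.h k.h, rp_sb h.i k.i⟩
theorem sbz_bd {Z W : M9 ℤ} {b : ℤ} (h : BM b Z) (k : BM b W) : BM (2 * b) (sbz Z W) :=
  ⟨ab2' h.a k.a, ab2' h.b k.b, ab2' h.c k.c, ab2' h.d k.d, ab2' h.e k.e, ab2' h.f k.f,
    ab2' h.g k.g, ab2' h.h k.h, ab2' h.i k.i⟩

theorem ap1_sbz (Z W : M9 ℤ) (x : Fin 3 → ℂ) :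
    ap1 (rM (sbz Z W)) x = ap1 (rM Z) x - ap1 (rM W) x := by
  funext j
  fin_cases j
  · change ap1 (rM (sbz Z W)) x 0 = ap1 (rM Z) x 0 - ap1 (rM W) x 0
    rw [ap1_0, ap1_0, ap1_0]; simp only [rM, GR.mpM, cI_apply, sbz]; push_cast; ring
  · change ap1 (rM (sbz Z W)) x 1 = ap1 (rM Z) x 1 - ap1 (rM W) x 1
    rw [ap1_1, ap1_1, ap1_1]; simp only [rM, GR.mpM, cI_apply, sbz]; push_cast; ring
  · change ap1 (rM (sbz Z W)) x 2 = ap1 (rM Z) x 2 - ap1 (rM W) x 2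
    rw [ap1_2, ap1_2, ap1_2]; simp only [rM, GR.mpM, cI_apply, sbz]; push_cast; ring

theorem sqM_rM (Z : M9 ℤ) : GR.sqM (rM Z) = ((GR.sqM Z : ℤ) : ℝ) := by
  simp only [GR.sqM, rM, GR.mpM, cI_apply]
  push_cast
  ring

theorem nr_ap1z {Z : M9 ℤ} {d : ℕ} (h : 9 * (8 * GR.sqM Z) ≤ 64 * ((d : ℤ) * d))
    (x : Fin 3 → ℂ) : nr (ap1 (rM Z) x) ≤ (d : ℝ) ^ 2 * nr x := by
  refine (nr_ap1 _ x).trans (mul_le_mul_of_nonneg_right ?_ (nr_nonneg x))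
  rw [sqM_rM]
  have h1 : GR.sqM Z ≤ (d : ℤ) ^ 2 := by nlinarith [sqM_nonneg Z]
  exact_mod_cast h1

end Pool.Agent.Helper48.CXT
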