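import Pool.Agent.Helper94.CXT.KU

/-!
Far cells of tail classes: the check of a piece and of a class. Labels `3 .. 9`, tails are `0`.
-/

set_option autoImplicit false
noncomputable section
namespace Pool.Agent.Helper48.CXT.KC

open Pool.Agent.Helper86.CX (Hm)
open Pool.Agent.Helper94.CXF (M9)
open Pool.Agent.Helper94.CXF.KN hiding Sg dnv dnO slT
open Pool.Agent.Helper48.CXT.KT
open Pool.Agent.Helper94.CXT.KU

/-- data of a state, as in `KN.SD` -/
structure SDT where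
  K0 : Nat
  KF : Nat
  KB : Nat
  A1 : Nat
  B1 : Nat
  A2 : Nat
  B2 : Nat
  r0 : List (Tr Lf)
  rF : List (Tr Lf)
  rB : List (Tr Lf)
  s0 : List (Tr Lf)
  vF : Tr Lf
  vB : Tr Lf
  g0 : Tr (List Sg)
  gF : Tr (List Sg)
  gB : Tr (List Sg)
  n1 : Tr Lf
  n2 : Tr Lf
  t2 : Tr L2T
  i1 : List Nat
  i2 : List Nat
  u1 : Tr LUT
  u2 : Tr LUT
  uf : Tr Lf

/-- a piece: states (index `3 n + a`), nodes, `|xc|`, radius of `x0` (units `2 ^ (-16)`), centre
`2 ^ 48 xc + 2 ^ 50`, first and last position -/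
structure PT where
  s : List SDT
  ns : List Nd
  x : Nat
  xr : Nat
  xv : Nat
  i0 : Nat
  i1 : Nat

def lf0 : Lf := ⟨nat_lit 0, nat_lit 0, nat_lit 0, nat_lit 0, nat_lit 0, nat_lit 0, []⟩
def tl0 : Tr Lf := .lf lf0
def ts0 : Tr (List Sg) := .lf []
def t270 : Tr L2T := .lf l27
def t280 : Tr LUT := .lf l28
def sdT0 : SDT := ⟨nat_lit 0, nat_lit 0, nat_lit 0, nat_lit 0, nat_lit 0, nat_lit 0, nat_lit 0, [], [],
  [], [], tl0, tl0, ts0, ts0, ts0, tl0, tl0, t270, [], [], t280, t280, tl0⟩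
def nthD (l : List SDT) : Nat → SDT :=
  List.rec (motive := fun _ => Nat → SDT) (fun _ => sdT0)
    (fun x _ ih k => Nat.rec (motive := fun _ => SDT) x (fun k _ => ih k) k) l
def nthT (l : List (Tr Lf)) : Nat → Tr Lf :=
  List.rec (motive := fun _ => Nat → Tr Lf) (fun _ => tl0)
    (fun x _ ih k => Nat.rec (motive := fun _ => Tr Lf) x (fun k _ => ih k) k) l

/-! ### boxes -/

/-- lower and upper ends, index `3 i + j` -/
def bLo (b : Bx) : List Nat :=
  [nat_lit 0, b.a1, b.a3, b.a1, nat_lit 0, b.a2, b.a3, b.a2, nat_lit 0]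
def bHi (b : Bx) : List Nat :=
  [nat_lit 0, b.b1, b.b3, b.b1, nat_lit 0, b.b2, b.b3, b.b2, nat_lit 0]
/-- the box of `(k, h, g)` of the state `(n, a, c)` -/
def sbx (b : Bx) (n a c : Nat) : Bx :=
  ⟨nth (bLo b) (ix n a), nth (bHi b) (ix n a), nth (bLo b) (ix a c), nth (bHi b) (ix a c),
    nth (bLo b) (ix n c), nth (bHi b) (ix n c), nat_lit 0, nat_lit 0⟩
def setR (b : Bx) (r : Nat) : Bx := ⟨b.a1, b.b1, b.a2, b.b2, b.a3, b.b3, nat_lit 0, r⟩
/-- interval of a label; tails: at least `19 / 10` -/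
def okI (l a b : Nat) : Bool :=
  Bool.rec (motive := fun _ => Bool)
    (andB (andB (Nat.ble (nat_lit 3) l) (Nat.ble l (nat_lit 9)))
      (andB (Nat.beq a (nth tk l)) (Nat.beq b (nth tk l))))
    (andB (Nat.ble (nat_lit 534802455750247) a)
      (andB (Nat.ble a b) (Nat.ble b (nat_lit 562949953421312)))) (Nat.beq l (nat_lit 0))

/-! ### the tests of a state -/

def cL (o L : Bool) (x y : Nat) : Nat :=
  Bool.rec (motive := fun _ => Nat) y (Bool.rec (motive := fun _ => Nat) y x L) o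
def c3E (o L : Bool) (M i : Nat) : Nat :=
  cL o L (Nat.add (Nat.shiftRight (Nat.mul (Nat.add (nth (nthL te M) (Nat.add i (nat_lit 2)))
    (nth (nthL te M) (Nat.add i (nat_lit 1)))) (nat_lit 3)) (nat_lit 48)) (nat_lit 2)) (nat_lit 0)
/-- a test of the kind `leafP`, target `K` -/
def lP (X : Cx) (K : Nat) (KN : Hm Nat) (F : Nat → Nat → Nat → MP) (c1 c2 c3 : Nat) (dv : Bx → Bx)
    (t : Tr Lf) (b : Bx) : Bool :=
  trev (fun v l => leafP X (lam K) o20 (dec K) KN F c1 c2 c3 (dv v) l) t b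
def lB (X : Cx) (K : Nat) (KN : Hm Nat) (F : Nat → Nat → Nat → Nat → Nat → MP) (c1 c2 c3 : Nat)
    (t : Tr Lf) (b : Bx) : Bool :=
  trev (fun v l => leafB X (lam K) o20 (dec K) KN F c1 c2 c3 (dvC v) l) t b
def idB (b : Bx) : Bx := b
/-- target form of a run from the exact star `M` -/
def tgE (s : List SDT) (M n a c i : Nat) : Nat :=
  selN (nthD s (selN (ix n c) (ix a c) (evn i))).KF (nthD s (selN (ix n c) (ix a c) (evn i))).K0
    (Nat.beq (Nat.add i (nat_lit 3)) M)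
/-- exact star -/
def rnE (X : Cx) (s : List SDT) (KN : Hm Nat) (o L : Bool) (b : Bx) (M n a c : Nat)
    (l : List (Tr Lf)) : Nat → Bool :=
  List.rec (motive := fun _ => Nat → Bool) (fun i => Nat.ble M (Nat.add i (nat_lit 2)))
    (fun t _ ih i => andB (lP X (tgE s M n a c i) KN
      (fun _ h g => TR o L (selB (orN n a) (orN a n) (evn i)) h g M i) (nat_lit 0) (nat_lit 0)
      (c3E o L M i) idB t b) (ih (Nat.succ i))) l
/-- tail star -/
def rnT (X : Cx) (s : List SDT) (KN : Hm Nat) (o L : Bool) (b : Bx) (n a c : Nat)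
    (l : List (Tr Lf)) : Bool :=
  andB (lP X (nthD s (ix n c)).K0 KN (F3 o L (orN n a)) (cL o L (nat_lit 34) (nat_lit 3)) (nat_lit 0)
      (cL o L (nat_lit 7) (nat_lit 0)) idB (nthT l (nat_lit 0)) b)
    (andB (lB X (nthD s (ix n c)).K0 KN (FO o L (orN n a)) (cL o L (nat_lit 52) (nat_lit 22))
        (nat_lit 0) (cL o L (nat_lit 7) (nat_lit 0)) (nthT l (nat_lit 1))
        (setR b (nat_lit 140737488355328)))
      (lB X (nthD s (ix a c)).K0 KN (FE o L (orN a n)) (cL o L (nat_lit 52) (nat_lit 22))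
        (nat_lit 0) (cL o L (nat_lit 7) (nat_lit 0)) (nthT l (nat_lit 2))
        (setR b (nat_lit 187649984473771))))
def rnX (X : Cx) (s : List SDT) (KN : Hm Nat) (o L : Bool) (b : Bx) (M n a c : Nat)
    (l : List (Tr Lf)) : Bool :=
  selB (rnT X s KN o L b n a c l) (rnE X s KN o L b M n a c l (nat_lit 0)) (Nat.beq M (nat_lit 0))

/-- forms -/
def tN (L4 nt o : Bool) (D : SDT) : Bool :=
  andB (impB L4 (okK D.K0)) (andB (impB nt (okK D.KF)) (andB (okK D.KB)
    (impB o (andB (andB (ngs (dec D.A1)) (andB (ngs (dec D.A2)) (andB (okA D.A1) (andB (okA D.A2)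
      (andB (okB D.B1) (okB D.B2)))))) (andB (okL D.A1 D.B1) (okL D.A2 D.B2))))))
def tR (X : Cx) (s : List SDT) (L4 nt o : Bool) (D : SDT) (b : Bx) (M n a c : Nat) : Bool :=
  andB (impB L4 (rnX X s (srcN D.K0) o false b M n a c D.r0))
    (andB (impB nt (rnX X s (srcN D.KF) o false b M n a c D.rF))
      (rnX X s (srcN D.KB) o true b M n a c D.rB))
/-- one run of two; `E` the data of `(a, c, n)` -/
def tA1 (X : Cx) (L4 o : Bool) (D E : SDT) (b : Bx) : Bool :=
  impB L4 (selB (trev (fun v l => leafA X E.A1 E.B1 (srcN D.K0) v l) D.n1 b)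
    (lP X E.KB (srcN D.K0) (fun k _ g => TNpN k g) (nat_lit 0) (nat_lit 0) (nat_lit 0) dvH D.n1 b) o)
/-- two runs of two from `Y`; `F` the data of `(c, n, a)` -/
def tA2 (X : Cx) (L4 o : Bool) (D F : SDT) (b : Bx) : Bool :=
  impB L4 (selB (trev (fun v l => t2T X F.A2 F.B2 (srcN D.K0) v l) D.t2 b)
    (lP X F.KB (srcN D.K0) TPpN (nat_lit 3) (nat_lit 0) (nat_lit 0) idB D.n2 b) o)
def tI (X : Cx) (o : Bool) (D : SDT) : Bool :=
  impB o (andB
    (aff X.ns X.k X.e D.i1 (smH p96 (dec D.KB)) z9N (dec D.A1) (dec D.B1))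
    (aff X.ns X.k X.e D.i2 (smH p96 (dec D.KB)) z9N (dec D.A2) (dec D.B2)))
def tU (X : Cx) (o : Bool) (D F : SDT) (b : Bx) : Bool :=
  selB (andB (andB (eqo D.A1 F.A1) (eqo D.A2 F.A2))
      (andB (trev (fun v l => uuT X F.A1 F.B1 D.A1 D.B1 v l) D.u1 b)
        (trev (fun v l => uuT X F.A2 F.B2 D.A2 D.B2 v l) D.u2 b)))
    (lP X F.KB (srcN D.KB) TPpN (nat_lit 3) (nat_lit 0) (nat_lit 0) idB D.uf b) o
/-- reference vectors -/
def krf : Hm Nat := smH c138 kref
def tV (X : Cx) (L4 nt o : Bool) (D : SDT) (b : Bx) : Bool :=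
  andB (impB L4 (andB
      (lP X D.K0 krf (fun k h g => TYN o k h g a03 u1N) (nat_lit 21) (nat_lit 0) (nat_lit 12) idB
        (nthT D.s0 (nat_lit 0)) b)
      (andB (lP X D.K0 krf (fun k h g => TYN o k h g a03e u1N) (nat_lit 21) (nat_lit 0) (nat_lit 12)
        idB (nthT D.s0 (nat_lit 1)) b)
      (lP X D.K0 krf (fun k h g => TYN o k h g a03 b1e) (nat_lit 21) (nat_lit 0) (nat_lit 12) idB
        (nthT D.s0 (nat_lit 2)) b))))
    (andB (impB nt (lP X D.KF krf (fun k h g => TYN o k h g a03 u1N) (nat_lit 21) (nat_lit 0)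
        (nat_lit 12) idB D.vF b))
      (selB (lP X D.KB krf (TLY o) (nat_lit 21) (nat_lit 0) (nat_lit 48) idB D.vB b)
        (lP X D.KB krf (TLN o) (nat_lit 11) (nat_lit 0) (nat_lit 9) idB D.vB b) L4))
/-- slits -/
def lS (X : Cx) (o : Bool) (K : Nat) (F : Nat → Nat → Nat → MP) (c1 c2 c3 : Nat) (dv : Bx → Bx)
    (t : Tr (List Sg)) (b : Bx) : Bool :=
  trev (fun v l => leafS X o (srcN K) F c1 c2 c3 dv v l) t b
def lG (X : Cx) (o : Bool) (K : Nat) (M n a : Nat) (t : Tr (List Sg)) (b : Bx) : Bool :=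
  selB (lS X o K (F3 o false (orN n a)) (nat_lit 3) (nat_lit 0) (nat_lit 0) idB t b)
    (lS X o K (fun _ h g => TR o false (orN n a) h g M (nat_lit 0)) (nat_lit 0) (nat_lit 0)
      (nat_lit 0) idB t b) (Nat.beq M (nat_lit 0))
def tG (X : Cx) (L4 o : Bool) (D : SDT) (b : Bx) (M n a : Nat) : Bool :=
  andB (selB (lG X o D.K0 M n a D.g0 b) (lG X o D.KF M n a D.gF b) L4)
    (selB (lS X o D.KB FU (nat_lit 0) (nat_lit 0) (nat_lit 0) dvU D.gB b)
      (lS X o D.KB TPpN (nat_lit 3) (nat_lit 0) (nat_lit 0) idB D.gB b) o)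
def tS2 (X : Cx) (s : List SDT) (L4 nt o : Bool) (D E F : SDT) (b : Bx) (M n a c : Nat) : Bool :=
  andB (tN L4 nt o D) (andB (tR X s L4 nt o D b M n a c) (andB (tA1 X L4 o D E b)
    (andB (tA2 X L4 o D F b) (andB (tI X o D) (andB (tU X o D F b) (andB (tV X L4 nt o D b)
      (tG X L4 o D b M n a)))))))
/-- all tests with the source `(n, a, c)`; `b` is the box of the class -/
def tS (p q r : Nat) (X : Cx) (s : List SDT) (b : Bx) (n a c : Nat) : Bool :=
  tS2 X s (notB (Nat.beq (mo p q r n c) (nat_lit 3))) (notB (Nat.beq (mo p q r n c) (nat_lit 0)))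
    (orN n c) (nthD s (ix n a)) (nthD s (ix a c)) (nthD s (ix c n)) (sbx b n a c)
    (mo p q r n a) n a c

/-! ### pieces -/

def pX (P : PT) : Cx := ⟨P.ns, P.x, P.xr, nthN P.ns P.i0, (nthN P.ns P.i1).i⟩
/-- one source state of a piece -/
def cST (p q r : Nat) (b : Bx) (P : PT) (n a c : Nat) : Bool := tS p q r (pX P) P.s b n a c
/-- nodes, centre and radius; `b.r0`, `b.r1` is the interval of `2 ^ 48 x0 + 2 ^ 50` -/
def cHT (p q r : Nat) (b : Bx) (P : PT) : Bool :=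
  andB (andB (okI p b.a1 b.b1) (andB (okI q b.a2 b.b2) (okI r b.a3 b.b3)))
  (andB (andB (Nat.ble b.r1 (Nat.add P.xv (Nat.mul P.xr (nat_lit 4294967296))))
      (Nat.ble P.xv (Nat.add b.r0 (Nat.mul P.xr (nat_lit 4294967296)))))
  (andB (andB (Nat.ble P.x (nat_lit 131072)) (Nat.ble P.xr (nat_lit 131072)))
  (andB (andB (Nat.ble (Nat.add P.xv (nat_lit 32))
        (Nat.add (nat_lit 1125899906842624) (Nat.mul P.x (nat_lit 4294967296))))
      (Nat.ble (nat_lit 1125899906842656) (Nat.add P.xv (Nat.mul P.x (nat_lit 4294967296)))))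
    (andB (Nat.ble (Nat.succ (nthN P.ns P.i0).i) (nthN P.ns P.i1).i)
      (andB (okNd P.xv (nthN P.ns P.i0)) (allN (okNd P.xv) P.ns))))))
def cPT (p q r : Nat) (b : Bx) (P : PT) : Bool :=
  andB (cHT p q r b P) (andB (cST p q r b P (nat_lit 0) (nat_lit 1) (nat_lit 2))
    (andB (cST p q r b P (nat_lit 1) (nat_lit 2) (nat_lit 0))
      (andB (cST p q r b P (nat_lit 2) (nat_lit 0) (nat_lit 1))
        (andB (cST p q r b P (nat_lit 0) (nat_lit 2) (nat_lit 1))
          (andB (cST p q r b P (nat_lit 1) (nat_lit 0) (nat_lit 2))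
            (cST p q r b P (nat_lit 2) (nat_lit 1) (nat_lit 0)))))))
/-- the pieces cover `[s, 253]` -/
def cvT (l : List PT) : Nat → Bool :=
  List.rec (motive := fun _ => Nat → Bool) (fun s => Nat.ble (nat_lit 253) s)
    (fun P _ ih s => andB (Nat.ble (nthN P.ns P.i0).i s) (ih (nthN P.ns P.i1).i)) l
def cLT (p q r : Nat) (l : List PT) (b : Bx) : Bool :=
  List.rec (motive := fun _ => Bool) true (fun P _ ih => andB (cPT p q r b P) ih) l
/-- a class: tree of boxes of `(κ p, κ q, κ r, x0)` -/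
def cCT (p q r : Nat) (t : Tr (List PT)) (b : Bx) : Bool :=
  trev (fun b l => andB (cvT l (nat_lit 0)) (cLT p q r l b)) t b
/-- box of a label -/
def loL (l : Nat) : Nat := selN (nat_lit 535397221549391) (nth tk l) (Nat.beq l (nat_lit 0))
def hiL (l : Nat) : Nat := selN (nat_lit 562949953421312) (nth tk l) (Nat.beq l (nat_lit 0))
def rtB (p q r x0 x1 : Nat) : Bx := ⟨loL p, hiL p, loL q, hiL q, loL r, hiL r, x0, x1⟩

end Pool.Agent.Helper48.CXT.KC
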