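import Pool.Agent.Helper48.CXT.KC

/-!
Far cells of tail classes: joining the kernel checks of the pieces.
-/

set_option autoImplicit false
noncomputable section
namespace Pool.Agent.Helper48.CXT.KC

open Pool.Agent.Helper48.CXT.KT
open Pool.Agent.Helper94.CXF.KN (andB)

variable {p q r : ℕ} {b : Bx}

theorem an {x y : Bool} (h : x = true) (g : y = true) : andB x y = true := by
  rw [h, g]; rfl

theorem clf {l : List PT} (h : cvT l (nat_lit 0) = true) (g : cLT p q r l b = true) :
    cCT p q r (.lf l) b = true := an h g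
theorem cs1 {x y : Tr (List PT)} (h : cCT p q r x (l1 b) = true)
    (g : cCT p q r y (h1 b) = true) : cCT p q r (.s1 x y) b = true := an h g
theorem cs2 {x y : Tr (List PT)} (h : cCT p q r x (l2 b) = true)
    (g : cCT p q r y (h2 b) = true) : cCT p q r (.s2 x y) b = true := an h g
theorem cs3 {x y : Tr (List PT)} (h : cCT p q r x (l3 b) = true)
    (g : cCT p q r y (h3 b) = true) : cCT p q r (.s3 x y) b = true := an h g
theorem cs4 {x y : Tr (List PT)} (h : cCT p q r x (l4 b) = true)
    (g : cCT p q r y (h4 b) = true) : cCT p q r (.s4 x y) b = true := an h g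
theorem cl0 : cLT p q r [] b = true := rfl
theorem cl1 {P : PT} {l : List PT} (h : cPT p q r b P = true) (g : cLT p q r l b = true) :
    cLT p q r (P :: l) b = true := an h g
theorem cp7 {P : PT} (h : cHT p q r b P = true)
    (h1 : cST p q r b P (nat_lit 0) (nat_lit 1) (nat_lit 2) = true)
    (h2 : cST p q r b P (nat_lit 1) (nat_lit 2) (nat_lit 0) = true)
    (h3 : cST p q r b P (nat_lit 2) (nat_lit 0) (nat_lit 1) = true)
    (h4 : cST p q r b P (nat_lit 0) (nat_lit 2) (nat_lit 1) = true)
    (h5 : cST p q r b P (nat_lit 1) (nat_lit 0) (nat_lit 2) = true)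
    (h6 : cST p q r b P (nat_lit 2) (nat_lit 1) (nat_lit 0) = true) :
    cPT p q r b P = true :=
  an h (an h1 (an h2 (an h3 (an h4 (an h5 h6)))))

end Pool.Agent.Helper48.CXT.KC
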