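import Pool.Agent.Helper48.CXT.KT
import Pool.Agent.Helper94.CXF.S8
import Pool.Agent.Helper60.CXF.Con2

/-!
Far cells of tail classes: the real side of the kernel checker (definitions).
-/

set_option autoImplicit false
noncomputable section
namespace Pool.Agent.Helper48.CXT

open Pool.Agent.Helper86.CX renaming Hm → Hm, ev → hev
open Pool.Agent.Helper94.CXF (M9)
open Pool.Agent.Helper94.CXF
open Pool.Agent.Helper94.CXF.SD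

abbrev P9 := M9 ℝ × M9 ℝ

/-- `c S + d T` -/
def cm1 (c : ℝ) (S : M9 ℝ) (d : ℝ) (T : M9 ℝ) : M9 ℝ :=
  ⟨c * S.a + d * T.a, c * S.b + d * T.b, c * S.c + d * T.c, c * S.d + d * T.d, c * S.e + d * T.e,
    c * S.f + d * T.f, c * S.g + d * T.g, c * S.h + d * T.h, c * S.i + d * T.i⟩
def cmb (c : ℝ) (S : P9) (d : ℝ) (T : P9) : P9 := (cm1 c S.1 d T.1, cm1 c S.2 d T.2)

/-- `|T.1 x + e T.2 x|² ≤ g9 T |x|²` for `|e| ≤ 1 / 8` -/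
def g9 (T : P9) : ℝ := 9 * (8 * GR.sqM T.1 + GR.sqM T.2) / 64

def rP (Z : M9 ℤ × M9 ℤ) : P9 := (rM Z.1, rM Z.2)

def sl (a b : ℕ) (c : Bool) : ℕ := if c then b else a

def it1 (t : ℝ) (Z : Bool → P9) : P9 := cmb (1 - t) (Z false) t (Z true)
/-- interpolation between the corners -/
def it3 (t1 t2 t3 : ℝ) (Z : Bool → Bool → Bool → P9) : P9 :=
  it1 t1 fun c1 => it1 t2 fun c2 => it1 t3 fun c3 => Z c1 c2 c3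
def brn (r : ℝ) (Z : Fin 3 → P9) : P9 :=
  cmb 1 (cmb ((1 - r) ^ 2) (Z 0) (2 * r * (1 - r)) (Z 1)) (r ^ 2) (Z 2)

def I01 (t : ℝ) : Prop := 0 ≤ t ∧ t ≤ 1

/-- `2 ^ 48 T` is `d`-close to the interpolation of the integer corners -/
def NearP (d : ℕ) (T : P9) (Z : Bool → Bool → Bool → M9 ℤ × M9 ℤ) : Prop :=
  ∃ t1 t2 t3, I01 t1 ∧ I01 t2 ∧ I01 t3 ∧
    g9 (cmb (2 ^ 48) T (-1) (it3 t1 t2 t3 fun c1 c2 c3 => rP (Z c1 c2 c3))) ≤ (d : ℝ) ^ 2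

def NearB (d : ℕ) (T : P9) (Z : Bool → Bool → Bool → Fin 3 → M9 ℤ × M9 ℤ) : Prop :=
  ∃ t1 t2 t3 r, I01 t1 ∧ I01 t2 ∧ I01 t3 ∧ I01 r ∧
    g9 (cmb (2 ^ 48) T (-1) (it3 t1 t2 t3 fun c1 c2 c3 => brn r fun j => rP (Z c1 c2 c3 j))) ≤
      (d : ℝ) ^ 2

/-- the natural matrices represent integer ones -/
structure RpP (N : KT.MP) (Z : M9 ℤ × M9 ℤ) : Prop where
  r1 : RM N.1 Z.1
  r2 : RM N.2 Z.2
  b1 : BM (2 ^ 54) Z.1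
  b2 : BM (2 ^ 54) Z.2

/-- the corners of a box -/
def CorP (b : KT.Bx) (F : ℕ → ℕ → ℕ → KT.MP) (Z : Bool → Bool → Bool → M9 ℤ × M9 ℤ) : Prop :=
  ∀ c1 c2 c3, RpP (F (sl b.a1 b.b1 c1) (sl b.a2 b.b2 c2) (sl b.a3 b.b3 c3)) (Z c1 c2 c3)

def mJ (b : KT.Bx) (j : Fin 3) : ℕ := ![b.r0, KT.mid b.r0 b.r1, b.r1] j
def qJ (b : KT.Bx) (j : Fin 3) : ℕ := ![KN.mu b.r0 b.r0, KN.mu b.r0 b.r1, KN.mu b.r1 b.r1] j

def CorB (b : KT.Bx) (F : ℕ → ℕ → ℕ → ℕ → ℕ → KT.MP)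
    (Z : Bool → Bool → Bool → Fin 3 → M9 ℤ × M9 ℤ) : Prop :=
  ∀ c1 c2 c3 j, RpP (F (sl b.a1 b.b1 c1) (sl b.a2 b.b2 c2) (sl b.a3 b.b3 c3) (mJ b j) (qJ b j))
    (Z c1 c2 c3 j)

/-- facts about a segment; `xc` is the centre of the interval of `x0` -/
structure CxOk (xc : ℝ) (X : KT.Cx) : Prop where
  hx : |xc| ≤ (X.x : ℝ) / 2 ^ 16
  hx2 : X.x ≤ 2 ^ 17
  hr2 : X.xr ≤ 2 ^ 17
  ns : ∀ n ∈ X.ns, Ndd xc n
  st : Ndd xc X.k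
  lt : X.k.i < X.e

/-- a point of the curve of `x0`, in the segment -/
structure InX (xc : ℝ) (X : KT.Cx) (x0 s : ℝ) (u : ℂ) : Prop where
  cv : Cv x0 s u
  x1 : |x0 - xc| ≤ (X.xr : ℝ) / 2 ^ 16
  x2 : |x0| ≤ 2
  s0 : (X.k.i : ℝ) / 2048 ≤ s
  s1 : s ≤ (X.e : ℝ) / 2048

/-- a parameter in an interval (a point if the ends are equal, then up to rounding) -/
def InV (a b : ℕ) (v : ℝ) : Prop :=
  (a = b ∧ |(a : ℝ) - 2 ^ 48 * v| ≤ 1) ∨ ((a : ℝ) ≤ 2 ^ 48 * v ∧ 2 ^ 48 * v ≤ b)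

structure InB (b : KT.Bx) (v1 v2 v3 R : ℝ) : Prop where
  v1 : InV b.a1 b.b1 v1
  v2 : InV b.a2 b.b2 v2
  v3 : InV b.a3 b.b3 v3
  r0 : (b.r0 : ℝ) ≤ 2 ^ 48 * R
  r1 : 2 ^ 48 * R ≤ b.r1

/-- sane boxes of `(k, h, g, R)` -/
structure Rg (b : KT.Bx) : Prop where
  a1 : 2 ^ 48 ≤ b.a1
  a2 : 2 ^ 48 ≤ b.a2
  a3 : 2 ^ 48 ≤ b.a3
  b1 : b.b1 ≤ 2 ^ 49
  b2 : b.b2 ≤ 2 ^ 49
  b3 : b.b3 ≤ 2 ^ 49
  c1 : b.a1 ≤ b.b1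
  c2 : b.a2 ≤ b.b2
  c3 : b.a3 ≤ b.b3
  r : b.r0 ≤ b.r1
  r1 : b.r1 ≤ 187649984473771

/-! ### the statements of row BOX -/

/-- combinations of differences of the corners see `K'` at most as `la` -/
def LamP (la : ℕ) (K' : Hm ℤ) (Z : Bool → Bool → Bool → M9 ℤ × M9 ℤ) : Prop :=
  ∀ (e : ℂ) (x : Fin 3 → ℂ), ∀ v ∈ Submodule.span ℝ {v | ∃ c1 c2 c3 d1 d2 d3,
    v = ap (rP (Z c1 c2 c3)) e x - ap (rP (Z d1 d2 d3)) e x}, hev (rH K') v ≤ la * nr v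

/-- square of the Frobenius norm -/
def frz (K : Hm ℤ) : ℤ :=
  K.a * K.a + K.b * K.b + K.c * K.c + 2 * (K.d * K.d + K.e * K.e + K.f * K.f + K.g * K.g +
    K.h * K.h + K.i * K.i)

def BoxP : Prop := ∀ {xc x0 s : ℝ} {u : ℂ} {X : KT.Cx} {K' KN : Hm ℕ} {Kz' Kz : Hm ℤ}
  {la ka c1 c2 c3 : ℕ} {F : ℕ → ℕ → ℕ → KT.MP} {b : KT.Bx} {t : KT.Lf}
  {Z : Bool → Bool → Bool → M9 ℤ × M9 ℤ} {T : P9},
  CxOk xc X → InX xc X x0 s u → RH K' Kz' → BH (2 ^ 27) Kz' → RH KN (GR.smH (-2 ^ 138) Kz) →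
  BH (2 ^ 27) Kz → la ≤ 2 ^ 28 → ka ≤ 2 ^ 28 → frz Kz' ≤ (ka : ℤ) ^ 2 → LamP la Kz' Z →
  CorP b F Z → NearP (KT.dT c1 c2 c3 b) T Z → KT.dT c1 c2 c3 b ≤ 2 ^ 54 →
  KT.leafP X la ka K' KN F c1 c2 c3 b t = true → Imp (rH Kz) (rH Kz') (ap T (s * u))

/-- every form is bounded by `la` -/
def LamK (la : ℕ) (K' : Hm ℤ) : Prop := ∀ x, hev (rH K') x ≤ la * nr x

def BoxB : Prop := ∀ {xc x0 s : ℝ} {u : ℂ} {X : KT.Cx} {K' KN : Hm ℕ} {Kz' Kz : Hm ℤ}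
  {la ka c1 c2 c3 : ℕ} {F : ℕ → ℕ → ℕ → ℕ → ℕ → KT.MP} {b : KT.Bx} {t : KT.Lf}
  {Z : Bool → Bool → Bool → Fin 3 → M9 ℤ × M9 ℤ} {T : P9},
  CxOk xc X → InX xc X x0 s u → RH K' Kz' → BH (2 ^ 27) Kz' → RH KN (GR.smH (-2 ^ 138) Kz) →
  BH (2 ^ 27) Kz → la ≤ 2 ^ 28 → ka ≤ 2 ^ 28 → frz Kz' ≤ (ka : ℤ) ^ 2 → LamK la Kz' →
  CorB b F Z → NearB (KT.dT c1 c2 c3 b) T Z → KT.dT c1 c2 c3 b ≤ 2 ^ 54 →
  KT.leafB X la ka K' KN F c1 c2 c3 b t = true → Imp (rH Kz) (rH Kz') (ap T (s * u))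

/-! ### the statements of row CONT -/

/-- the matrices `T v` of a family, for parameters in the box `b`, are close to the interpolation of
the corners of the derived box `dv b` -/
def FamP (dv : KT.Bx → KT.Bx) (T : ℝ → ℝ → ℝ → P9) (F : ℕ → ℕ → ℕ → KT.MP) (c1 c2 c3 : ℕ) : Prop :=
  ∀ b, Rg b → ∀ v1 v2 v3 R, InB b v1 v2 v3 R → KT.dT c1 c2 c3 (dv b) ≤ 2 ^ 54 ∧
    ∃ Z, CorP (dv b) F Z ∧ NearP (KT.dT c1 c2 c3 (dv b)) (T v1 v2 v3) Z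

/-- the same with the run parameter; tails only: `k ≥ 19 / 10` -/
def FamB (rm : ℝ) (T : ℝ → ℝ → ℝ → ℝ → P9) (F : ℕ → ℕ → ℕ → ℕ → ℕ → KT.MP) (c1 c2 c3 : ℕ) : Prop :=
  ∀ b, Rg b → (19 / 10 : ℝ) * 2 ^ 48 ≤ b.a1 → ∀ v1 v2 v3 R, InB b v1 v2 v3 R →
    (b.a1 : ℝ) ≤ 2 ^ 48 * v1 → 2 ^ 48 * v1 ≤ b.b1 → R ≤ rm → KT.dT c1 c2 c3 (KT.dvC b) ≤ 2 ^ 54 ∧
    ∃ Z, CorB (KT.dvC b) F Z ∧ NearB (KT.dT c1 c2 c3 (KT.dvC b)) (T v1 v2 v3 R) Z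

/-- `W` times the run matrices of the long runs; `c = 2 / k` -/
def TRWr (o L tg : Bool) (h g p u0 um e1 e0 em w : ℝ) : P9 :=
  match o, L with
  | false, _ => (mkM tg (e1 * g) (-u0) 0 (e0 * g) (-um) 0 w 0 0,
      mkM tg (e0 * h) 0 p (em * h) 0 u0 0 0 0)
  | true, false => (mkM tg (e0 * h) 0 0 (em * h) 0 0 w 0 0,
      mkM tg (e1 * g) p (-u0) (e0 * g) u0 (-um) 0 0 0)
  | true, true => (mkM tg (e0 * (h * g)) (p * (h * g)) 0 (em * (h * g)) (u0 * (h * g)) 0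
        (w * g) 0 0,
      mkM tg (e1 * (g * g) - u0) 0 (-u0) (e0 * (g * g) - um) 0 (-um) 0 0 0)
/-- odd number of letters -/
def TOr (o L tg : Bool) (k h g R : ℝ) : P9 :=
  let c := 2 / k
  TRWr o L tg h g (2 * R + R ^ 2 - (c ^ 2 - 1)) (2 * c * R) (2 * R - R ^ 2 + (c ^ 2 - 1))
    (c * (1 + R)) (c ^ 2) (c * (1 - R)) (R ^ 2 + (c ^ 2 - 1))
/-- even number of letters -/
def TEr (o L tg : Bool) (k h g R : ℝ) : P9 :=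
  let c := 2 / k
  let z := (R ^ 2 + (c ^ 2 - 1)) / (2 * (c + 1))
  TRWr o L tg h g (2 * R + R ^ 2 - (c ^ 2 - 1)) (2 * c * R) (2 * R - R ^ 2 + (c ^ 2 - 1))
    (c * (1 + R) + c * z) (c ^ 2 - c * z) (c * (1 - R) + c * z) (R ^ 2 + (c ^ 2 - 1))
/-- `TUm k h g / (k h g)` -/
def TUr (k h g : ℝ) : P9 := cmb (1 / (k * h * g)) (TUm k h g) 0 (TUm k h g)

def cLL (o L : Bool) (x y : ℕ) : ℕ := if o && L then x else y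

/-- the families of row CONT -/
structure ContAll : Prop where
  /-- exact star; `u`, `e` numbers of the table; `c3` from the table -/
  ex : ∀ (o L tg : Bool) (u1 u0 um e1 e0 em : ℝ) (u1N u0N umN e1N e0N emN : ℕ),
    Ap 16 3 u1 u1N → Ap 16 3 u0 u0N → Ap 16 3 um umN → Ap 24 9 e1 e1N → Ap 24 9 e0 e0N →
    Ap 24 9 em emN →
    FamP id (fun _ h g => TRr o L tg h g u1 u0 um e1 e0 em)
      (fun _ h g => KN.TRN o L tg h g u1N u0N umN e1N e0N emN) 0 0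
      (cLL o L ((((e1N + e0N) * 3) >>> 48) + 2) 0)
  t3 : ∀ o L tg : Bool,
    FamP id (fun k h g => TRr o L tg h g (k * k - 1) k 1 k 1 0) (KT.F3 o L tg) (cLL o L 34 3) 0
      (cLL o L 7 0)
  od : ∀ o L tg : Bool, FamB (1 / 2) (TOr o L tg) (KT.FO o L tg) (cLL o L 52 22) 0 (cLL o L 7 0)
  ev : ∀ o L tg : Bool, FamB (2 / 3) (TEr o L tg) (KT.FE o L tg) (cLL o L 52 22) 0 (cLL o L 7 0)
  np : FamP KT.dvH (fun k _ g => TNp k g) (fun k _ g => KN.TNpN k g) 0 0 0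
  nm : FamP KT.dvH (fun k _ g => (TNm k g, z9)) (fun k _ g => (KN.TNmN k g, KN.z9M)) 0 0 12
  pp : FamP id (fun k h g => TPp k h g) KN.TPpN 3 0 0
  um : FamP KT.dvU (fun k h g => TUr k h g) KT.FU 0 0 0
  ty : ∀ (o : Bool) (a b : ℝ) (aN bN : ℕ), Ap 1 1 a aN → a ≤ 7 / 10 → Ap 1 2 b bN →
    FamP id (fun k h g => TYr o k h g a b) (fun k h g => KN.TYN o k h g aN bN) 21 0 12
  tl : ∀ o : Bool, FamP id (fun k h g => TLr o k h g) (KN.TLN o) 11 0 9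
  tly : ∀ o : Bool, FamP id (fun k h g => TLYr o k h g) (KN.TLY o) 21 0 48

end Pool.Agent.Helper48.CXT
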