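import Pool.Agent.Helper94.CXF.KN

/-!
Far cells of tail classes: kernel checker. Parameters (the numbers `κ` of the three labels and the
run parameter `R`) vary in boxes; the run matrices are interpolated between the corners. Units as in
`KN`: run matrices and parameters `2 ^ (-48)`, forms `2 ^ (-20)`, functions of the node `2 ^ (-62)`,
multipliers (on the side of the source form) `2 ^ (-20)`.
-/

set_option autoImplicit false
noncomputable section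
namespace Pool.Agent.Helper48.CXT.KT

open Pool.Agent.Helper86.CX (Hm)
open Pool.Agent.Helper94.CXF (M9)
open Pool.Agent.Helper94.CXF.KN

abbrev MP := M9 Nat × M9 Nat

/-! ### boxes and trees -/

/-- box of `(v1, v2, v3, R)` -/
structure Bx where
  a1 : Nat
  b1 : Nat
  a2 : Nat
  b2 : Nat
  a3 : Nat
  b3 : Nat
  r0 : Nat
  r1 : Nat

inductive Tr (α : Type) where
  | lf (x : α)
  | s1 (x y : Tr α)
  | s2 (x y : Tr α)
  | s3 (x y : Tr α)
  | s4 (x y : Tr α)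

def mid (a b : Nat) : Nat := Nat.shiftRight (Nat.add a b) (nat_lit 1)
def l1 (b : Bx) : Bx := ⟨b.a1, mid b.a1 b.b1, b.a2, b.b2, b.a3, b.b3, b.r0, b.r1⟩
def h1 (b : Bx) : Bx := ⟨mid b.a1 b.b1, b.b1, b.a2, b.b2, b.a3, b.b3, b.r0, b.r1⟩
def l2 (b : Bx) : Bx := ⟨b.a1, b.b1, b.a2, mid b.a2 b.b2, b.a3, b.b3, b.r0, b.r1⟩
def h2 (b : Bx) : Bx := ⟨b.a1, b.b1, mid b.a2 b.b2, b.b2, b.a3, b.b3, b.r0, b.r1⟩
def l3 (b : Bx) : Bx := ⟨b.a1, b.b1, b.a2, b.b2, b.a3, mid b.a3 b.b3, b.r0, b.r1⟩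
def h3 (b : Bx) : Bx := ⟨b.a1, b.b1, b.a2, b.b2, mid b.a3 b.b3, b.b3, b.r0, b.r1⟩
def l4 (b : Bx) : Bx := ⟨b.a1, b.b1, b.a2, b.b2, b.a3, b.b3, b.r0, mid b.r0 b.r1⟩
def h4 (b : Bx) : Bx := ⟨b.a1, b.b1, b.a2, b.b2, b.a3, b.b3, mid b.r0 b.r1, b.r1⟩

def trev {α : Type} (f : Bx → α → Bool) (t : Tr α) : Bx → Bool :=
  Tr.rec (motive := fun _ => Bx → Bool) (fun x b => f b x)
    (fun _ _ p q b => andB (p (l1 b)) (q (h1 b))) (fun _ _ p q b => andB (p (l2 b)) (q (h2 b)))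
    (fun _ _ p q b => andB (p (l3 b)) (q (h3 b))) (fun _ _ p q b => andB (p (l4 b)) (q (h4 b))) t

/-- both ends of an interval, one if they are equal; `i` is the index of the corner -/
def lev (a b : Nat) (f : Nat → Nat → Bool) (i : Nat) : Bool :=
  Bool.rec (motive := fun _ => Bool) (andB (f a (Nat.add i i)) (f b (Nat.succ (Nat.add i i))))
    (f a i) (Nat.beq a b)
/-- all corners -/
def cor (b : Bx) (f : Nat → Nat → Nat → Nat → Bool) : Bool :=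
  lev b.a1 b.b1 (fun v1 i => lev b.a2 b.b2 (fun v2 i => lev b.a3 b.b3 (fun v3 i => f v1 v2 v3 i) i) i)
    (nat_lit 0)

/-! ### norms -/

def sq9 (A : M9 Nat) : Nat := Nat.add (sR A) (sB A)
/-- `9 (8 |T.1|² + |T.2|²) ≤ 64 d²` -/
def f9 (T : MP) (d : Nat) : Bool :=
  Nat.ble (Nat.mod (Nat.mul (nat_lit 9) (Nat.add (Nat.mul (nat_lit 8) (sq9 T.1)) (sq9 T.2))) MM)
    (Nat.mul (nat_lit 64) (Nat.mul d d))
def sbM (A B : M9 Nat) : M9 Nat :=
  ⟨sb A.a B.a, sb A.b B.b, sb A.c B.c, sb A.d B.d, sb A.e B.e, sb A.f B.f, sb A.g B.g, sb A.h B.h,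
    sb A.i B.i⟩
def adM (A B : M9 Nat) : M9 Nat :=
  ⟨Nat.add A.a B.a, Nat.add A.b B.b, Nat.add A.c B.c, Nat.add A.d B.d, Nat.add A.e B.e,
    Nat.add A.f B.f, Nat.add A.g B.g, Nat.add A.h B.h, Nat.add A.i B.i⟩
def sbP (S T : MP) : MP := (sbM S.1 T.1, sbM S.2 T.2)
def adP (S T : MP) : MP := (adM S.1 T.1, adM S.2 T.2)
/-- square of the Frobenius norm of a Hermitian matrix -/
def frH (A : Hm Nat) : Nat :=
  Nat.add (Nat.add (Nat.mul A.a A.a) (Nat.add (Nat.mul A.b A.b) (Nat.mul A.c A.c)))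
    (Nat.mul (nat_lit 2) (Nat.add (sq4 A.d A.e A.f A.g) (Nat.add (Nat.mul A.h A.h) (Nat.mul A.i A.i))))

/-! ### the form pulled back: `P + Re e A + Im e B + s² S` -/

structure Gf where
  P : Hm Nat
  A : Hm Nat
  B : Hm Nat
  S : Hm Nat

def gf1 (R0 J0 R1 J1 R2 J2 : M9 Nat) : Gf := ⟨hm R0 J0, cA R1 J1, cB R1 J1, hm R2 J2⟩
def gf (K' : Hm Nat) (T : MP) : Gf :=
  gf1 (qr K' T.1 T.1) (qi K' T.1 T.1) (qr K' T.1 T.2) (qi K' T.1 T.2) (qr K' T.2 T.2) (qi K' T.2 T.2)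
/-- `x - y - z` -/
def s3 (x y z : Nat) : Nat := Nat.mod (Nat.add x (Nat.mul NN (Nat.add y z))) MM
def s3H (X Y Z : Hm Nat) : Hm Nat :=
  ⟨s3 X.a Y.a Z.a, s3 X.b Y.b Z.b, s3 X.c Y.c Z.c, s3 X.d Y.d Z.d, s3 X.e Y.e Z.e, s3 X.f Y.f Z.f,
    s3 X.g Y.g Z.g, s3 X.h Y.h Z.h, s3 X.i Y.i Z.i⟩
def s3G (X Y Z : Gf) : Gf := ⟨s3H X.P Y.P Z.P, s3H X.A Y.A Z.A, s3H X.B Y.B Z.B, s3H X.S Y.S Z.S⟩
/-- `x + 4 y` -/
def a4H (X Y : Hm Nat) : Hm Nat :=
  ⟨Nat.add X.a (Nat.mul (nat_lit 4) Y.a), Nat.add X.b (Nat.mul (nat_lit 4) Y.b),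
    Nat.add X.c (Nat.mul (nat_lit 4) Y.c), Nat.add X.d (Nat.mul (nat_lit 4) Y.d),
    Nat.add X.e (Nat.mul (nat_lit 4) Y.e), Nat.add X.f (Nat.mul (nat_lit 4) Y.f),
    Nat.add X.g (Nat.mul (nat_lit 4) Y.g), Nat.add X.h (Nat.mul (nat_lit 4) Y.h),
    Nat.add X.i (Nat.mul (nat_lit 4) Y.i)⟩
def a4G (X Y : Gf) : Gf := ⟨a4H X.P Y.P, a4H X.A Y.A, a4H X.B Y.B, a4H X.S Y.S⟩

/-- `|A|² + |B|² ≤ (w n)²`, `|S|² ≤ (w m)²` -/
def nmC (w n m : Nat) (C : Gf) : Bool :=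
  andB (Nat.ble (Nat.mod (Nat.add (frH C.A) (frH C.B)) MM) (Nat.mul (Nat.mul w n) (Nat.mul w n)))
    (Nat.ble (Nat.mod (frH C.S) MM) (Nat.mul (Nat.mul w m) (Nat.mul w m)))

/-! ### nodes -/

def e5 (pr pi ps P A B S mu K : Nat) : Nat :=
  Nat.mod (Nat.add (Nat.add (Nat.add (Nat.mul o62 P) (Nat.mul pr A)) (Nat.add (Nat.mul pi B) (Nat.mul ps S)))
    (Nat.mul mu K)) MM
def nd5 (pr pi ps mu d : Nat) (P A B S K : Hm Nat) : Hm Nat :=
  ⟨Nat.add (e5 pr pi ps P.a A.a B.a S.a mu K.a) d, Nat.add (e5 pr pi ps P.b A.b B.b S.b mu K.b) d,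
   Nat.add (e5 pr pi ps P.c A.c B.c S.c mu K.c) d, e5 pr pi ps P.d A.d B.d S.d mu K.d,
   e5 pr pi ps P.e A.e B.e S.e mu K.e, e5 pr pi ps P.f A.f B.f S.f mu K.f,
   e5 pr pi ps P.g A.g B.g S.g mu K.g, e5 pr pi ps P.h A.h B.h S.h mu K.h,
   e5 pr pi ps P.i A.i B.i S.i mu K.i⟩
/-- `2 ^ 62 (P + Re e A + Im e B + s² S) + mu KN`, `d` added on the diagonal -/
def nC (mu d : Nat) (k : Nd) (C : Gf) (KN : Hm Nat) : Hm Nat :=
  nd5 (fer k) (fei k) (fs2 k) mu d C.P C.A C.B C.S KN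
/-- radius of `x0` (unit `2 ^ (-16)`): change of `e = s u` for `s ≤ i / 2048` -/
def dX (xr i : Nat) : Nat := Nat.mul (Nat.mul xr (Nat.mul i i)) (nat_lit 17448305)
/-- the slack of a chord -/
def slk (x xr n m p : Nat) (k0 k1 : Nd) : Nat :=
  Nat.add (Nat.add (Nat.mul (Nat.add (dE x (Nat.sub k1.i k0.i)) (dX xr k1.i)) n)
    (Nat.mul (dS (Nat.sub k1.i k0.i)) m)) p
/-- multiplier number `i` -/
def ml (M i : Nat) : Nat :=
  Nat.mod (Nat.shiftRight M (Nat.mul (nat_lit 32) i)) (nat_lit 4294967296)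
/-- a control form at the two ends of a chord, with slack `w D` -/
def ctl (w D : Nat) (C : Gf) (KN : Hm Nat) (k0 k1 : Nd) (a b : Nat) : Bool :=
  andB (psd (nC a (ng (Nat.mul w D)) k0 C KN)) (psd (nC b (ng (Nat.mul w D)) k1 C KN))

/-! ### leaves -/

/-- bounds: `n`, `m` norms of the pulled back forms, `y` of the matrices, `d1`, `d2`, `d3` of their
differences in the directions of the parameters; chords: position of the right end + 64 times the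
packed multipliers -/
structure Lf where
  n : Nat
  m : Nat
  y : Nat
  d1 : Nat
  d2 : Nat
  d3 : Nat
  c : List Nat

/-- `2 ^ 60` -/
def o60 : Nat := nat_lit 1152921504606846976
/-- `λ (d1² + d2² + d3²) / 4 + κ d (2 y + d)`, unit `2 ^ (-178)` -/
def pS (la ka d : Nat) (t : Lf) : Nat :=
  Nat.add (Nat.add (Nat.mul o60 (Nat.mul la (Nat.add (Nat.mul t.d1 t.d1)
      (Nat.add (Nat.mul t.d2 t.d2) (Nat.mul t.d3 t.d3)))))
    (Nat.mul o62 (Nat.mul ka (Nat.mul d (Nat.add (Nat.add t.y t.y) d))))) p158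
/-- error of the interpolation in one direction, `c` in units `1 / 8` -/
def dN (c a b : Nat) : Nat :=
  Nat.succ (Nat.shiftRight (Nat.mul c (Nat.mul (Nat.sub b a) (Nat.sub b a))) (nat_lit 53))
/-- distance between the matrices and the interpolated ones -/
def dT (c1 c2 c3 : Nat) (b : Bx) : Nat :=
  Nat.add (Nat.add (nat_lit 1024) (dN c1 b.a1 b.b1)) (Nat.add (dN c2 b.a2 b.b2) (dN c3 b.a3 b.b3))

/-- everything about the segment: nodes, `|x0|`, radius of `x0`, first node, last `i` -/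
structure Cx where
  ns : List Nd
  x : Nat
  xr : Nat
  k : Nd
  e : Nat

def bnd (t : Lf) : Bool :=
  andB (andB (Nat.ble t.n big) (andB (Nat.ble t.m big) (Nat.ble t.y o60)))
    (andB (Nat.ble t.d1 o60) (andB (Nat.ble t.d2 o60) (Nat.ble t.d3 o60)))

/-- one corner -/
def cnP (X : Cx) (t : Lf) (p : Nat) (KN : Hm Nat) (T : MP) (C : Gf) (i : Nat) : Bool :=
  andB (f9 T t.y) (andB (nmC (nat_lit 1) t.n t.m C)
    (chs X.ns (fun k0 k1 l => andB (Nat.ble (Nat.succ k0.i) k1.i)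
      (ctl (nat_lit 1) (slk X.x X.xr t.n t.m p k0 k1) C KN k0 k1 (ml l (Nat.mul (nat_lit 2) i))
        (ml l (Nat.succ (Nat.mul (nat_lit 2) i))))) X.e t.c X.k))
/-- difference in the three directions -/
def dif (b : Bx) (t : Lf) (F : Nat → Nat → Nat → MP) : Bool :=
  andB (lev b.a2 b.b2 (fun v2 _ => lev b.a3 b.b3 (fun v3 _ => f9 (sbP (F b.b1 v2 v3) (F b.a1 v2 v3)) t.d1)
      (nat_lit 0)) (nat_lit 0))
    (andB (lev b.a1 b.b1 (fun v1 _ => lev b.a3 b.b3 (fun v3 _ => f9 (sbP (F v1 b.b2 v3) (F v1 b.a2 v3)) t.d2)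
      (nat_lit 0)) (nat_lit 0))
    (lev b.a1 b.b1 (fun v1 _ => lev b.a2 b.b2 (fun v2 _ => f9 (sbP (F v1 v2 b.b3) (F v1 v2 b.a3)) t.d3)
      (nat_lit 0)) (nat_lit 0)))

/-- the main test on a box, no run parameter -/
def leafP (X : Cx) (la ka : Nat) (K' KN : Hm Nat) (F : Nat → Nat → Nat → MP) (c1 c2 c3 : Nat)
    (b : Bx) (t : Lf) : Bool :=
  andB (bnd t) (andB (dif b t F)
    (cor b (fun v1 v2 v3 i => cnP X t (pS la ka (dT c1 c2 c3 b) t) KN (F v1 v2 v3)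
      (gf K' (F v1 v2 v3)) i)))

/-- one corner, the five control forms -/
def cnB (X : Cx) (t : Lf) (p : Nat) (KN : Hm Nat) (C0 C1 C2 C3 C4 : Gf) (i : Nat) : Bool :=
  andB (andB (nmC (nat_lit 1) t.n t.m C0) (andB (nmC (nat_lit 2) t.n t.m C1)
      (andB (nmC (nat_lit 6) t.n t.m C2) (andB (nmC (nat_lit 2) t.n t.m C3)
        (nmC (nat_lit 1) t.n t.m C4)))))
    (chs X.ns (fun k0 k1 l => andB (Nat.ble (Nat.succ k0.i) k1.i)
      (andB (ctl (nat_lit 1) (slk X.x X.xr t.n t.m p k0 k1) C0 KN k0 k1 (ml l (Nat.mul (nat_lit 10) i))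
          (ml l (Nat.add (Nat.mul (nat_lit 10) i) (nat_lit 1))))
      (andB (ctl (nat_lit 2) (slk X.x X.xr t.n t.m p k0 k1) C1 KN k0 k1
          (ml l (Nat.add (Nat.mul (nat_lit 10) i) (nat_lit 2)))
          (ml l (Nat.add (Nat.mul (nat_lit 10) i) (nat_lit 3))))
      (andB (ctl (nat_lit 6) (slk X.x X.xr t.n t.m p k0 k1) C2 KN k0 k1
          (ml l (Nat.add (Nat.mul (nat_lit 10) i) (nat_lit 4)))
          (ml l (Nat.add (Nat.mul (nat_lit 10) i) (nat_lit 5))))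
      (andB (ctl (nat_lit 2) (slk X.x X.xr t.n t.m p k0 k1) C3 KN k0 k1
          (ml l (Nat.add (Nat.mul (nat_lit 10) i) (nat_lit 6)))
          (ml l (Nat.add (Nat.mul (nat_lit 10) i) (nat_lit 7))))
        (ctl (nat_lit 1) (slk X.x X.xr t.n t.m p k0 k1) C4 KN k0 k1
          (ml l (Nat.add (Nat.mul (nat_lit 10) i) (nat_lit 8)))
          (ml l (Nat.add (Nat.mul (nat_lit 10) i) (nat_lit 9)))))))))
      X.e t.c X.k)
def cB2 (X : Cx) (t : Lf) (p : Nat) (KN : Hm Nat) (G0 G1 G2 G01 G02 G12 : Gf) (i : Nat) : Bool :=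
  cnB X t p KN G0 (s3G G01 G0 G1) (a4G (s3G G02 G0 G2) G1) (s3G G12 G1 G2) G2 i
def cB1 (X : Cx) (t : Lf) (p : Nat) (K' KN : Hm Nat) (T0 T1 T2 : MP) (i : Nat) : Bool :=
  andB (andB (f9 T0 t.y) (andB (f9 T1 t.y) (f9 T2 t.y)))
    (cB2 X t p KN (gf K' T0) (gf K' T1) (gf K' T2) (gf K' (adP T0 T1)) (gf K' (adP T0 T2))
      (gf K' (adP T1 T2)) i)

/-- the main test on a box, with the run parameter: matrices at `(m, q)`, which stands for `(R, R²)` -/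
def leafB (X : Cx) (la ka : Nat) (K' KN : Hm Nat) (F : Nat → Nat → Nat → Nat → Nat → MP)
    (c1 c2 c3 : Nat) (b : Bx) (t : Lf) : Bool :=
  andB (bnd t) (andB
    (andB (dif b t (fun v1 v2 v3 => F v1 v2 v3 b.r0 (mu b.r0 b.r0)))
      (andB (dif b t (fun v1 v2 v3 => F v1 v2 v3 (mid b.r0 b.r1) (mu b.r0 b.r1)))
        (dif b t (fun v1 v2 v3 => F v1 v2 v3 b.r1 (mu b.r1 b.r1)))))
    (cor b (fun v1 v2 v3 i => cB1 X t (pS la ka (dT c1 c2 c3 b) t) K' KN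
      (F v1 v2 v3 b.r0 (mu b.r0 b.r0)) (F v1 v2 v3 (mid b.r0 b.r1) (mu b.r0 b.r1))
      (F v1 v2 v3 b.r1 (mu b.r1 b.r1)) i)))

/-! ### families -/

/-- `x - 1` for `x ≥ 1` -/
def su (x : Nat) : Nat := Nat.sub x u1N
/-- the run matrices times `w`; `u1 = p1 - p0` -/
def TRW (o L tg : Bool) (h h' p1 p0 u0 um e1 e0 em w : Nat) : MP :=
  Bool.rec (motive := fun _ => MP)
    (mkN tg (mu e1 h') (nm u0) (nat_lit 0) (mu e0 h') (nm um) (nat_lit 0) w (nat_lit 0) (nat_lit 0),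
      mkN tg (mu e0 h) (nat_lit 0) (sb p1 p0) (mu em h) (nat_lit 0) u0 (nat_lit 0) (nat_lit 0) (nat_lit 0))
    (Bool.rec (motive := fun _ => MP)
      (mkN tg (mu e0 h) (nat_lit 0) (nat_lit 0) (mu em h) (nat_lit 0) (nat_lit 0) w (nat_lit 0) (nat_lit 0),
        mkN tg (mu e1 h') (sb p1 p0) (nm u0) (mu e0 h') u0 (nm um) (nat_lit 0) (nat_lit 0) (nat_lit 0))
      (mkN tg (mu e0 (mu h h')) (sb (mu p1 (mu h h')) (mu p0 (mu h h'))) (nat_lit 0)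
          (mu em (mu h h')) (mu u0 (mu h h')) (nat_lit 0) (mu w h') (nat_lit 0) (nat_lit 0),
        mkN tg (sb (mu e1 (mu h' h')) u0) (nat_lit 0) (nm u0) (sb (mu e0 (mu h' h')) um) (nat_lit 0)
          (nm um) (nat_lit 0) (nat_lit 0) (nat_lit 0)) L) o
/-- three letters, `k = v1`, `h = v2`, `g = v3` -/
def F3 (o L tg : Bool) (k h g : Nat) : MP :=
  TRN o L tg h g (su (mu k k)) k u1N k u1N (nat_lit 0)
/-- `c z`, `z = (q + c² - 1) / (2 (c + 1))` -/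
def czN (c q : Nat) : Nat :=
  Nat.add (Nat.div (Nat.mul c q) (Nat.mul (nat_lit 2) (Nat.add c u1N)))
    (Nat.shiftRight (mu c (su c)) (nat_lit 1))
/-- `W T` for an odd number `≥ 5` of letters; `c = 2 / k`, `m = R`, `q = R²` -/
def FO (o L tg : Bool) (c h g m q : Nat) : MP :=
  TRW o L tg h g (Nat.add (Nat.add m m) q) (su (mu c c)) (Nat.mul (nat_lit 2) (mu c m))
    (Nat.sub (Nat.add (Nat.add m m) (su (mu c c))) q) (Nat.add c (mu c m)) (mu c c)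
    (Nat.sub c (mu c m)) (Nat.add q (su (mu c c)))
/-- `W T` for an even number `≥ 4` of letters -/
def FE (o L tg : Bool) (c h g m q : Nat) : MP :=
  TRW o L tg h g (Nat.add (Nat.add m m) q) (su (mu c c)) (Nat.mul (nat_lit 2) (mu c m))
    (Nat.sub (Nat.add (Nat.add m m) (su (mu c c))) q) (Nat.add (Nat.add c (mu c m)) (czN c q))
    (Nat.sub (mu c c) (czN c q)) (Nat.add (Nat.sub c (mu c m)) (czN c q))
    (Nat.add q (su (mu c c)))
/-- `T / (k h g)` for two runs of two; `a = k²`, `c = g² - 1`, `q = 1 / (k h g)` -/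
def FU (a c q : Nat) : MP :=
  (⟨u1N, su a, nat_lit 0, nat_lit 0, u1N, nat_lit 0, nat_lit 0, nm (su a), nat_lit 0⟩,
    ⟨mu (mu a c) q, nat_lit 0, nm (mu a q), mu c q, nat_lit 0, nm q, nm (mu (mu a c) q), nat_lit 0,
      mu a q⟩)

/-! ### derived boxes -/

/-- the second parameter does not occur -/
def dvH (b : Bx) : Bx := ⟨b.a1, b.b1, b.a2, b.a2, b.a3, b.b3, b.r0, b.r1⟩
/-- `2 ^ 97` -/
def p97 : Nat := nat_lit 158456325028528675187087900672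
/-- `c = 2 / k` -/
def dvC (b : Bx) : Bx :=
  ⟨Nat.div p97 b.b1, Nat.succ (Nat.div p97 b.a1), b.a2, b.b2, b.a3, b.b3, b.r0, b.r1⟩
/-- `2 ^ 192` -/
def p192 : Nat := nat_lit 6277101735386680763835789423207666416102355444464034512896
/-- `(k², g² - 1, 1 / (k h g))` -/
def dvU (b : Bx) : Bx :=
  ⟨Nat.sub (mu b.a1 b.a1) (nat_lit 8), Nat.add (mu b.b1 b.b1) (nat_lit 8),
    Nat.sub (su (mu b.a3 b.a3)) (nat_lit 8), Nat.add (su (mu b.b3 b.b3)) (nat_lit 8),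
    Nat.div p192 (Nat.mul (Nat.succ b.b1) (Nat.mul (Nat.succ b.b2) (Nat.succ b.b3))),
    Nat.succ (Nat.div p192 (Nat.mul (Nat.pred b.a1) (Nat.mul (Nat.pred b.a2) (Nat.pred b.a3)))),
    b.r0, b.r1⟩

/-! ### forms -/

/-- bound of the largest eigenvalue (or of the norm), in the upper bits -/
def lam (K : Nat) : Nat := Nat.shiftRight K (nat_lit 252)
/-- `l - K` -/
def lmK (l : Nat) (K : Hm Nat) : Hm Nat :=
  ⟨Nat.add l (nm K.a), Nat.add l (nm K.b), Nat.add l (nm K.c), nm K.d, nm K.e, nm K.f, nm K.g,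
    nm K.h, nm K.i⟩
/-- `2 ^ 40` -/
def o40 : Nat := nat_lit 1099511627776
/-- `2 ^ 20` -/
def o20 : Nat := nat_lit 1048576
/-- `2 ^ 28` -/
def o28 : Nat := nat_lit 268435456
/-- `2 ^ 21` -/
def o21 : Nat := nat_lit 2097152
/-- negative on `x 0 = 0`, norm at most `1`, largest eigenvalue at most `lam K` -/
def okK (K : Nat) : Bool :=
  andB (andB (ngs (dec K)) (Nat.ble (lam K) o28)) (andB (Nat.ble (Nat.mod (frH (dec K)) MM) o40) (psd (lmK (lam K) (dec K))))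
/-- `8 A + B` -/
def a8 (A B : Hm Nat) : Hm Nat :=
  ⟨Nat.add (Nat.mul (nat_lit 8) A.a) B.a, Nat.add (Nat.mul (nat_lit 8) A.b) B.b,
    Nat.add (Nat.mul (nat_lit 8) A.c) B.c, Nat.add (Nat.mul (nat_lit 8) A.d) B.d,
    Nat.add (Nat.mul (nat_lit 8) A.e) B.e, Nat.add (Nat.mul (nat_lit 8) A.f) B.f,
    Nat.add (Nat.mul (nat_lit 8) A.g) B.g, Nat.add (Nat.mul (nat_lit 8) A.h) B.h,
    Nat.add (Nat.mul (nat_lit 8) A.i) B.i⟩
/-- forms `A + s B`, `0 ≤ s ≤ 1 / 8`: largest eigenvalue at most `lam A`, norm at most `lam B` -/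
def okL (A B : Nat) : Bool :=
  andB (andB (Nat.ble (lam A) o28) (Nat.ble (lam B) o28)) (andB (andB (Nat.ble (Nat.mod (frH (dec A)) MM) (Nat.mul (lam B) (lam B)))
      (Nat.ble (Nat.mod (frH (a8 (dec A) (dec B))) MM)
        (Nat.mul (nat_lit 64) (Nat.mul (lam B) (lam B)))))
    (andB (psd (lmK (lam A) (dec A)))
      (psd (lmK (Nat.mul (nat_lit 8) (lam A)) (a8 (dec A) (dec B))))))
/-- `- 2 ^ 138` modulo `2 ^ 1152` -/
def c138 : Nat := nat_lit 61172327492847069472032393719205726809135813743440799050195397570919697796091958321786863938157971792315844506873509046544459008355036150650333616890210625686064472971480622053109783197015954399612052812141827922088117778074833698589048132156300022844899841969874763871624802603515651998113045708569927237114097089441793556678182520399286398615552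
/-- the source form, `- 2 ^ 138 K` -/
def srcN (K : Nat) : Hm Nat := smH c138 (dec K)

/-! ### slits -/

structure Sg where
  p : Nat
  gr : Nat
  gi : Nat
  t : Lf

/-- `Re (g (c0 + c1 e))` at a node, minus the slack -/
def dnv (X : Cx) (c0 c1 gr gi : Nat) (k0 k1 k : Nd) : Nat :=
  Nat.add (Nat.add (Nat.mul gr (Nat.add (Nat.mul c0 o62) (Nat.mul c1 (fer k))))
    (Nat.mul gi (Nat.mul c1 (fei k))))
    (Nat.mul NN (Nat.add (Nat.mul (nat_lit 1770887431076116955136)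
      (Nat.add (dE X.x (Nat.sub k1.i k0.i)) (dX X.xr k1.i))) p92))
def dnO (X : Cx) (c0 c1 : Nat) (k0 k1 : Nd) (g : Sg) : Bool :=
  andB (pos (dnv X c0 c1 (sgn g.gr) (sgn g.gi) k0 k1 k0))
    (pos (dnv X c0 c1 (sgn g.gr) (sgn g.gi) k0 k1 k1))
def dnB (X : Cx) (o : Bool) (b : Bx) (k0 k1 : Nd) (g : Sg) : Bool :=
  andB (andB (Nat.ble g.gr o21) (andB (Nat.ble g.gi o21) (Nat.ble (Nat.succ k0.i) k1.i)))
    (cor b (fun v1 v2 v3 _ => dnO X (dc0 o v1 v2 v3) (dc1 o v1 v2 v3) k0 k1 g))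
def kgS (g : Sg) : Hm Nat :=
  ⟨nat_lit 0, nat_lit 0, nat_lit 0, sgn g.gr, ng (sgn g.gi), nat_lit 0, nat_lit 0, nat_lit 0,
    nat_lit 0⟩
/-- `64` -/
def c64 : Nat := nat_lit 18014398509481984
/-- first row, and the constant row `(64, 0, 0)` -/
def slT (T : MP) : MP :=
  (⟨T.1.a, T.1.b, T.1.c, c64, nat_lit 0, nat_lit 0, nat_lit 0, nat_lit 0, nat_lit 0⟩,
    ⟨T.2.a, T.2.b, T.2.c, nat_lit 0, nat_lit 0, nat_lit 0, nat_lit 0, nat_lit 0, nat_lit 0⟩)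
def leafS (X : Cx) (o : Bool) (KN : Hm Nat) (F : Nat → Nat → Nat → MP) (c1 c2 c3 : Nat)
    (dv : Bx → Bx) (b : Bx) (l : List Sg) : Bool :=
  List.rec (motive := fun _ => Nd → Bool) (fun k => Nat.beq k.i X.e)
    (fun g _ ih k => andB (dnB X o b k (nthN X.ns g.p) g)
      (andB (leafP ⟨X.ns, X.x, X.xr, k, (nthN X.ns g.p).i⟩ (nat_lit 0) o21 (kgS g) KN
        (fun v1 v2 v3 => slT (F v1 v2 v3)) c1 c2 c3 (dv b) g.t) (ih (nthN X.ns g.p)))) l X.k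

/-! ### one run of two, orientation `-` -/

def eA (s V0 V1 mu K : Nat) : Nat :=
  Nat.mod (Nat.add (Nat.add (Nat.mul o62 V0) (Nat.mul s V1)) (Nat.mul mu K)) MM
def nA (mu d s : Nat) (V0 V1 K : Hm Nat) : Hm Nat :=
  ⟨Nat.add (eA s V0.a V1.a mu K.a) d, Nat.add (eA s V0.b V1.b mu K.b) d,
    Nat.add (eA s V0.c V1.c mu K.c) d, eA s V0.d V1.d mu K.d, eA s V0.e V1.e mu K.e,
    eA s V0.f V1.f mu K.f, eA s V0.g V1.g mu K.g, eA s V0.h V1.h mu K.h, eA s V0.i V1.i mu K.i⟩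
def cnA (X : Cx) (t : Lf) (p : Nat) (KN V0 V1 : Hm Nat) (T : M9 Nat) (i : Nat) : Bool :=
  andB (f9 (T, z9M) t.y)
    (chs X.ns (fun k0 k1 l => andB (Nat.ble (Nat.succ k0.i) k1.i)
      (andB (psd (nA (ml l (Nat.mul (nat_lit 2) i)) (ng p) (fs k0) V0 V1 KN))
        (psd (nA (ml l (Nat.succ (Nat.mul (nat_lit 2) i))) (ng p) (fs k1) V0 V1 KN)))) X.e t.c X.k)
def hmq (K : Hm Nat) (T : M9 Nat) : Hm Nat := hm (qr K T T) (qi K T T)
def leafA (X : Cx) (A B : Nat) (KN : Hm Nat) (b : Bx) (t : Lf) : Bool :=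
  andB (bnd t) (andB (dif (dvH b) t (fun k _ g => (TNmN k g, z9M)))
    (cor (dvH b) (fun k _ g i => cnA X t
      (pS (lam A) (lam B) (dT (nat_lit 0) (nat_lit 0) (nat_lit 12) (dvH b)) t) KN
      (hmq (dec A) (TNmN k g)) (hmq (dec B) (TNmN k g)) (TNmN k g) i)))

end Pool.Agent.Helper48.CXT.KT
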