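import Pool.Agent.Helper48.CXT.KS

/-!
Far cells of tail classes: trees of boxes.
-/

set_option autoImplicit false
noncomputable section
namespace Pool.Agent.Helper48.CXT

open Pool.Agent.Helper94.CXF
open Pool.Agent.Helper94.CXF.SD

/-- sub-box -/
structure SubB (b' b : KT.Bx) : Prop where
  a1 : b.a1 ≤ b'.a1
  c1 : b'.a1 ≤ b'.b1
  b1 : b'.b1 ≤ b.b1
  a2 : b.a2 ≤ b'.a2
  c2 : b'.a2 ≤ b'.b2
  b2 : b'.b2 ≤ b.b2
  a3 : b.a3 ≤ b'.a3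
  c3 : b'.a3 ≤ b'.b3
  b3 : b'.b3 ≤ b.b3
  r0 : b.r0 ≤ b'.r0
  r : b'.r0 ≤ b'.r1
  r1 : b'.r1 ≤ b.r1

/-- the ends are in order -/
structure OrB (b : KT.Bx) : Prop where
  c1 : b.a1 ≤ b.b1
  c2 : b.a2 ≤ b.b2
  c3 : b.a3 ≤ b.b3
  r : b.r0 ≤ b.r1

/-- a proper interval -/
def PrV (a b : ℕ) (v : ℝ) : Prop := (a : ℝ) ≤ 2 ^ 48 * v ∧ 2 ^ 48 * v ≤ b

theorem SubB.refl {b : KT.Bx} (h : OrB b) : SubB b b :=
  ⟨le_rfl, h.c1, le_rfl, le_rfl, h.c2, le_rfl, le_rfl, h.c3, le_rfl, le_rfl, h.r, le_rfl⟩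

theorem SubB.trans {a b c : KT.Bx} (h : SubB a b) (g : SubB b c) : SubB a c :=
  ⟨g.a1.trans h.a1, h.c1, h.b1.trans g.b1, g.a2.trans h.a2, h.c2, h.b2.trans g.b2,
    g.a3.trans h.a3, h.c3, h.b3.trans g.b3, g.r0.trans h.r0, h.r, h.r1.trans g.r1⟩

theorem SubB.or {b' b : KT.Bx} (h : SubB b' b) : OrB b' := ⟨h.c1, h.c2, h.c3, h.r⟩

theorem mid_eq (a b : ℕ) : KT.mid a b = (a + b) / 2 := by
  show (a + b) >>> 1 = _
  rw [Nat.shiftRight_eq_div_pow]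

theorem mid_lo {a b : ℕ} (h : a ≤ b) : a ≤ KT.mid a b := by
  rw [mid_eq]; omega
theorem mid_hi {a b : ℕ} (h : a ≤ b) : KT.mid a b ≤ b := by
  rw [mid_eq]; omega

theorem InV.left {a b : ℕ} {v : ℝ} (h : InV a b v) (hm : 2 ^ 48 * v ≤ (KT.mid a b : ℝ)) :
    InV a (KT.mid a b) v := by
  rcases h with ⟨h1, h2⟩ | ⟨h1, h2⟩
  · subst h1
    left
    refine ⟨?_, h2⟩
    rw [mid_eq]; omega
  · exact Or.inr ⟨h1, hm⟩

theorem InV.right {a b : ℕ} {v : ℝ} (h : InV a b v) (hm : (KT.mid a b : ℝ) ≤ 2 ^ 48 * v) :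
    InV (KT.mid a b) b v := by
  rcases h with ⟨h1, h2⟩ | ⟨h1, h2⟩
  · subst h1
    left
    have e : KT.mid a a = a := by rw [mid_eq]; omega
    exact ⟨e, by rw [e]; exact h2⟩
  · exact Or.inr ⟨hm, h2⟩

/-- what a tree gives -/
structure Got (b' b : KT.Bx) (v1 v2 v3 R : ℝ) : Prop where
  inb : InB b' v1 v2 v3 R
  sub : SubB b' b
  p1 : PrV b.a1 b.b1 v1 → PrV b'.a1 b'.b1 v1
  p2 : PrV b.a2 b.b2 v2 → PrV b'.a2 b'.b2 v2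
  p3 : PrV b.a3 b.b3 v3 → PrV b'.a3 b'.b3 v3

theorem Got.trans {b'' b' b : KT.Bx} {v1 v2 v3 R : ℝ} (h : Got b'' b' v1 v2 v3 R)
    (g : Got b' b v1 v2 v3 R) : Got b'' b v1 v2 v3 R :=
  ⟨h.inb, h.sub.trans g.sub, fun p => h.p1 (g.p1 p), fun p => h.p2 (g.p2 p),
    fun p => h.p3 (g.p3 p)⟩

section
variable {b : KT.Bx} {v1 v2 v3 R : ℝ}

theorem half1 (hb : OrB b) (hv : InB b v1 v2 v3 R) :
    Got (KT.l1 b) b v1 v2 v3 R ∨ Got (KT.h1 b) b v1 v2 v3 R := by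
  have m0 := mid_lo hb.c1
  have m1 := mid_hi hb.c1
  rcases le_total (2 ^ 48 * v1) ((KT.mid b.a1 b.b1 : ℕ) : ℝ) with h | h
  · left
    exact ⟨⟨hv.v1.left h, hv.v2, hv.v3, hv.r0, hv.r1⟩,
      ⟨le_rfl, m0, m1, le_rfl, hb.c2, le_rfl, le_rfl, hb.c3, le_rfl, le_rfl, hb.r, le_rfl⟩,
      fun p => ⟨p.1, h⟩, fun p => p, fun p => p⟩
  · right
    exact ⟨⟨hv.v1.right h, hv.v2, hv.v3, hv.r0, hv.r1⟩,
      ⟨m0, m1, le_rfl, le_rfl, hb.c2, le_rfl, le_rfl, hb.c3, le_rfl, le_rfl, hb.r, le_rfl⟩,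
      fun p => ⟨h, p.2⟩, fun p => p, fun p => p⟩

theorem half2 (hb : OrB b) (hv : InB b v1 v2 v3 R) :
    Got (KT.l2 b) b v1 v2 v3 R ∨ Got (KT.h2 b) b v1 v2 v3 R := by
  have m0 := mid_lo hb.c2
  have m1 := mid_hi hb.c2
  rcases le_total (2 ^ 48 * v2) ((KT.mid b.a2 b.b2 : ℕ) : ℝ) with h | h
  · left
    exact ⟨⟨hv.v1, hv.v2.left h, hv.v3, hv.r0, hv.r1⟩,
      ⟨le_rfl, hb.c1, le_rfl, le_rfl, m0, m1, le_rfl, hb.c3, le_rfl, le_rfl, hb.r, le_rfl⟩,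
      fun p => p, fun p => ⟨p.1, h⟩, fun p => p⟩
  · right
    exact ⟨⟨hv.v1, hv.v2.right h, hv.v3, hv.r0, hv.r1⟩,
      ⟨le_rfl, hb.c1, le_rfl, m0, m1, le_rfl, le_rfl, hb.c3, le_rfl, le_rfl, hb.r, le_rfl⟩,
      fun p => p, fun p => ⟨h, p.2⟩, fun p => p⟩

theorem half3 (hb : OrB b) (hv : InB b v1 v2 v3 R) :
    Got (KT.l3 b) b v1 v2 v3 R ∨ Got (KT.h3 b) b v1 v2 v3 R := by
  have m0 := mid_lo hb.c3
  have m1 := mid_hi hb.c3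
  rcases le_total (2 ^ 48 * v3) ((KT.mid b.a3 b.b3 : ℕ) : ℝ) with h | h
  · left
    exact ⟨⟨hv.v1, hv.v2, hv.v3.left h, hv.r0, hv.r1⟩,
      ⟨le_rfl, hb.c1, le_rfl, le_rfl, hb.c2, le_rfl, le_rfl, m0, m1, le_rfl, hb.r, le_rfl⟩,
      fun p => p, fun p => p, fun p => ⟨p.1, h⟩⟩
  · right
    exact ⟨⟨hv.v1, hv.v2, hv.v3.right h, hv.r0, hv.r1⟩,
      ⟨le_rfl, hb.c1, le_rfl, le_rfl, hb.c2, le_rfl, m0, m1, le_rfl, le_rfl, hb.r, le_rfl⟩,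
      fun p => p, fun p => p, fun p => ⟨h, p.2⟩⟩

theorem half4 (hb : OrB b) (hv : InB b v1 v2 v3 R) :
    Got (KT.l4 b) b v1 v2 v3 R ∨ Got (KT.h4 b) b v1 v2 v3 R := by
  have m0 := mid_lo hb.r
  have m1 := mid_hi hb.r
  rcases le_total (2 ^ 48 * R) ((KT.mid b.r0 b.r1 : ℕ) : ℝ) with h | h
  · left
    exact ⟨⟨hv.v1, hv.v2, hv.v3, hv.r0, h⟩,
      ⟨le_rfl, hb.c1, le_rfl, le_rfl, hb.c2, le_rfl, le_rfl, hb.c3, le_rfl, le_rfl, m0, m1⟩,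
      fun p => p, fun p => p, fun p => p⟩
  · right
    exact ⟨⟨hv.v1, hv.v2, hv.v3, h, hv.r1⟩,
      ⟨le_rfl, hb.c1, le_rfl, le_rfl, hb.c2, le_rfl, le_rfl, hb.c3, le_rfl, m0, m1, le_rfl⟩,
      fun p => p, fun p => p, fun p => p⟩

/-- TREES -/
theorem trev_sound {α : Type} {f : KT.Bx → α → Bool} : ∀ (t : KT.Tr α) {b : KT.Bx}
    {v1 v2 v3 R : ℝ}, KT.trev f t b = true → OrB b → InB b v1 v2 v3 R →
    ∃ b' x, f b' x = true ∧ Got b' b v1 v2 v3 R := by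
  intro t
  induction t with
  | lf x =>
    intro b v1 v2 v3 R h hb hv
    exact ⟨b, x, h, hv, SubB.refl hb, fun p => p, fun p => p, fun p => p⟩
  | s1 x y ihx ihy =>
    intro b v1 v2 v3 R h hb hv
    have h' : KN.andB (KT.trev f x (KT.l1 b)) (KT.trev f y (KT.h1 b)) = true := h
    rw [andB_iff] at h'
    rcases half1 hb hv with g | g
    · obtain ⟨b', z, k, m⟩ := ihx h'.1 g.sub.or g.inb
      exact ⟨b', z, k, m.trans g⟩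
    · obtain ⟨b', z, k, m⟩ := ihy h'.2 g.sub.or g.inb
      exact ⟨b', z, k, m.trans g⟩
  | s2 x y ihx ihy =>
    intro b v1 v2 v3 R h hb hv
    have h' : KN.andB (KT.trev f x (KT.l2 b)) (KT.trev f y (KT.h2 b)) = true := h
    rw [andB_iff] at h'
    rcases half2 hb hv with g | g
    · obtain ⟨b', z, k, m⟩ := ihx h'.1 g.sub.or g.inb
      exact ⟨b', z, k, m.trans g⟩
    · obtain ⟨b', z, k, m⟩ := ihy h'.2 g.sub.or g.inb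
      exact ⟨b', z, k, m.trans g⟩
  | s3 x y ihx ihy =>
    intro b v1 v2 v3 R h hb hv
    have h' : KN.andB (KT.trev f x (KT.l3 b)) (KT.trev f y (KT.h3 b)) = true := h
    rw [andB_iff] at h'
    rcases half3 hb hv with g | g
    · obtain ⟨b', z, k, m⟩ := ihx h'.1 g.sub.or g.inb
      exact ⟨b', z, k, m.trans g⟩
    · obtain ⟨b', z, k, m⟩ := ihy h'.2 g.sub.or g.inb
      exact ⟨b', z, k, m.trans g⟩
  | s4 x y ihx ihy =>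
    intro b v1 v2 v3 R h hb hv
    have h' : KN.andB (KT.trev f x (KT.l4 b)) (KT.trev f y (KT.h4 b)) = true := h
    rw [andB_iff] at h'
    rcases half4 hb hv with g | g
    · obtain ⟨b', z, k, m⟩ := ihx h'.1 g.sub.or g.inb
      exact ⟨b', z, k, m.trans g⟩
    · obtain ⟨b', z, k, m⟩ := ihy h'.2 g.sub.or g.inb
      exact ⟨b', z, k, m.trans g⟩

end

theorem Rg.or {b : KT.Bx} (h : Rg b) : OrB b := ⟨h.c1, h.c2, h.c3, h.r⟩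

theorem Rg.sub {b' b : KT.Bx} (h : Rg b) (s : SubB b' b) : Rg b' :=
  ⟨h.a1.trans s.a1, h.a2.trans s.a2, h.a3.trans s.a3, s.b1.trans h.b1, s.b2.trans h.b2,
    s.b3.trans h.b3, s.c1, s.c2, s.c3, s.r, s.r1.trans h.r1⟩

end Pool.Agent.Helper48.CXT
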