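import Pool.Agent.Helper48.CXT.KC
import Pool.Agent.Helper48.CXT.TS
import Pool.Agent.Helper94.CXT.UT3
import Pool.Agent.Helper6.CXT.BX4
import Pool.Agent.Helper94.CXF.S12

/-!
Far cells of tail classes: slits.
-/

set_option autoImplicit false
set_option exponentiation.threshold 4000
noncomputable section
namespace Pool.Agent.Helper48.CXT

open Pool.Agent.Helper86.CX renaming Hm → Hm, ev → hev
open Pool.Agent.Helper94.CXF (M9)
open Pool.Agent.Helper94.CXF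
open Pool.Agent.Helper94.CXF.SD
open Pool.Agent.Helper94.CXT (cor_sound Ends ends_of mu_le_real le_mu_real cv_near Vv_shift)
open Complex ComplexConjugate

/-! ### the matrices of the test -/

/-- first row -/
def sl1 (M : M9 ℝ) (w : ℝ) : M9 ℝ := ⟨M.a, M.b, M.c, w, 0, 0, 0, 0, 0⟩
def slP (w : ℝ) (T : P9) : P9 := (sl1 T.1 w, sl1 T.2 0)
def slZ (Z : M9 ℤ × M9 ℤ) : M9 ℤ × M9 ℤ :=
  (⟨Z.1.a, Z.1.b, Z.1.c, 2 ^ 54, 0, 0, 0, 0, 0⟩, ⟨Z.2.a, Z.2.b, Z.2.c, 0, 0, 0, 0, 0, 0⟩)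

theorem cm1_sl (c w d v : ℝ) (S T : M9 ℝ) :
    cm1 c (sl1 S w) d (sl1 T v) = sl1 (cm1 c S d T) (c * w + d * v) := by
  simp [cm1, sl1]

theorem cmb_sl (c w d v : ℝ) (S T : P9) :
    cmb c (slP w S) d (slP v T) = slP (c * w + d * v) (cmb c S d T) := by
  simp [cmb, slP, cm1_sl]

theorem it1_sl (t w : ℝ) (Z : Bool → P9) : it1 t (fun c => slP w (Z c)) = slP w (it1 t Z) := by
  have e : (1 - t) * w + t * w = w := by ring
  rw [it1, cmb_sl, e, it1]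

theorem it3_sl (t1 t2 t3 w : ℝ) (Z : Bool → Bool → Bool → P9) :
    it3 t1 t2 t3 (fun c1 c2 c3 => slP w (Z c1 c2 c3)) = slP w (it3 t1 t2 t3 Z) := by
  simp only [it3, it1_sl]

theorem rP_slZ (Z : M9 ℤ × M9 ℤ) : rP (slZ Z) = slP (2 ^ 54) (rP Z) := by
  have e : (cI (2 ^ 54) : ℝ) = 2 ^ 54 := by rw [cI_apply]; norm_num
  have z : (cI 0 : ℝ) = 0 := map_zero _
  simp only [rP, slZ, slP, sl1, rM, GR.mpM, e, z]

theorem g9_sl (M : P9) : g9 (slP 0 M) ≤ g9 M := by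
  simp only [g9, slP, sl1, GR.sqM]
  have h := fun x : ℝ => mul_self_nonneg x
  have := h M.1.d
  have := h M.1.e
  have := h M.1.f
  have := h M.1.g
  have := h M.1.h
  have := h M.1.i
  have := h M.2.d
  have := h M.2.e
  have := h M.2.f
  have := h M.2.g
  have := h M.2.h
  have := h M.2.i
  linarith

theorem c64_rep : Rp KT.c64 (2 ^ 54) := by
  unfold Rp Pool.Agent.Helper17.PAK.Rep Int.ModEq
  decide +kernel

theorem slT_rp {N : KT.MP} {Z : M9 ℤ × M9 ℤ} (h : RpP N Z) : RpP (KT.slT N) (slZ Z) := by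
  have z : |(0 : ℤ)| ≤ 2 ^ 54 := by norm_num
  exact ⟨⟨h.r1.a, h.r1.b, h.r1.c, c64_rep, rp_zero, rp_zero, rp_zero, rp_zero, rp_zero⟩,
    ⟨h.r2.a, h.r2.b, h.r2.c, rp_zero, rp_zero, rp_zero, rp_zero, rp_zero, rp_zero⟩,
    ⟨h.b1.a, h.b1.b, h.b1.c, by norm_num [slZ], z, z, z, z, z⟩,
    ⟨h.b2.a, h.b2.b, h.b2.c, z, z, z, z, z, z⟩⟩

theorem near_sl {d : ℕ} {T : P9} {Z : Bool → Bool → Bool → M9 ℤ × M9 ℤ} (h : NearP d T Z) :
    NearP d (slP 64 T) (fun c1 c2 c3 => slZ (Z c1 c2 c3)) := by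
  obtain ⟨t1, t2, t3, h1, h2, h3, hd⟩ := h
  refine ⟨t1, t2, t3, h1, h2, h3, ?_⟩
  have e : (it3 t1 t2 t3 fun c1 c2 c3 => rP (slZ (Z c1 c2 c3))) =
      slP (2 ^ 54) (it3 t1 t2 t3 fun c1 c2 c3 => rP (Z c1 c2 c3)) := by
    rw [← it3_sl]
    simp only [rP_slZ]
  have e2 : (2 : ℝ) ^ 48 * 64 + -1 * 2 ^ 54 = 0 := by norm_num
  rw [e, cmb_sl, e2]
  exact (g9_sl _).trans hd

theorem ap_sl (T : P9) (w : ℝ) (e : ℂ) (x : Fin 3 → ℂ) :
    ap (slP w T) e x 0 = ap T e x 0 ∧ ap (slP w T) e x 1 = w * x 0 := by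
  rw [ap_eq, ap_eq]
  constructor
  · simp only [Pi.add_apply, Pi.smul_apply, ap1_0, slP, sl1]
  · simp only [Pi.add_apply, Pi.smul_apply, ap1_1, slP, sl1]
    simp

/-! ### the form of the test -/

theorem kgS_rep (g : KT.Sg) :
    RH (KT.kgS g) (kgz ((g.gr : ℤ) - 2 ^ 20) ((g.gi : ℤ) - 2 ^ 20)) := by
  have hE : Rp (KN.ng (KN.sgn g.gi)) (-((g.gi : ℤ) - 2 ^ 20)) := rp_ng (sgn_rep g.gi)
  have hD := sgn_rep g.gr
  unfold KT.kgS kgz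
  generalize KN.ng (KN.sgn g.gi) = m at hE
  generalize KN.sgn g.gr = n at hD
  exact ⟨rp_zero, rp_zero, rp_zero, hD, hE, rp_zero, rp_zero, rp_zero, rp_zero⟩

theorem o21_eq : KT.o21 = 2 ^ 21 := by decide +kernel

theorem frz_kg {a b : ℤ} (ha : |a| ≤ 2 ^ 20) (hb : |b| ≤ 2 ^ 20) :
    frz (kgz a b) ≤ ((KT.o21 : ℕ) : ℤ) ^ 2 := by
  have h1 := sqz ha
  have h2 := sqz hb
  rw [o21_eq]
  simp only [frz, kgz]
  push_cast
  norm_num at *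
  linarith

theorem lam_kg (a b : ℤ) (Z : Bool → Bool → Bool → M9 ℤ × M9 ℤ) :
    LamP 0 (kgz a b) (fun c1 c2 c3 => slZ (Z c1 c2 c3)) := by
  intro e x v hv
  have key : ∀ w ∈ Submodule.span ℝ {v | ∃ c1 c2 c3 d1 d2 d3,
      v = ap (rP (slZ (Z c1 c2 c3))) e x - ap (rP (slZ (Z d1 d2 d3))) e x}, w 1 = 0 := by
    intro w hw
    induction hw using Submodule.span_induction with
    | mem y hy =>
      obtain ⟨c1, c2, c3, d1, d2, d3, rfl⟩ := hy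
      rw [rP_slZ, rP_slZ, Pi.sub_apply, (ap_sl _ _ _ _).2, (ap_sl _ _ _ _).2, sub_self]
    | zero => rfl
    | add y z _ _ h1 h2 => rw [Pi.add_apply, h1, h2, add_zero]
    | smul c y _ h => rw [Pi.smul_apply, h, smul_zero]
  rw [hev_kg, key v hv]
  simp

/-! ### the direction on a chord -/

section
variable {x0 xc : ℝ} {X : KT.Cx} {k0 k1 : KN.Nd} {u0 u1 u : ℂ} {s : ℝ} {c0 c1 : ℝ} {c0N c1N : ℕ}

theorem dnvT_rep (X : KT.Cx) (k0 k1 : KN.Nd) (c0N c1N : ℕ) {gr gi : ℕ} {a b : ℤ} (hr : Rp gr a)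
    (hi : Rp gi b) (k : KN.Nd) : Rp (KT.dnv X c0N c1N gr gi k0 k1 k)
      (dnz (Nat.add (Nat.mul 1770887431076116955136 (Nat.add (KN.dE X.x (Nat.sub k1.i k0.i))
        (KT.dX X.xr k1.i))) KN.p92) c0N c1N a b k) :=
  ((hr.mul (((Pool.Agent.Helper17.PAK.Rep.nat KN.MM c0N).mul rp_o62).add
    ((Pool.Agent.Helper17.PAK.Rep.nat KN.MM c1N).mul (rp_fer k)))).add
    (hi.mul ((Pool.Agent.Helper17.PAK.Rep.nat KN.MM c1N).mul (rp_fei k)))).add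
    (rep_NN.mul (Pool.Agent.Helper17.PAK.Rep.nat KN.MM _))

theorem dnT_sound (hx : |xc| ≤ (X.x : ℝ) / 2 ^ 16) (hx2 : X.x ≤ 2 ^ 17) (hr2 : X.xr ≤ 2 ^ 17)
    (h0 : NdR xc k0 u0) (h1 : NdR xc k1 u1) {g : KT.Sg} (gr1 : g.gr ≤ 2097152)
    (gi1 : g.gi ≤ 2097152) (hi : k0.i + 1 ≤ k1.i) (hc : KT.dnO X c0N c1N k0 k1 g = true)
    (hc0 : |(c0N : ℝ) - 2 ^ 48 * c0| ≤ 16) (hc1 : |(c1N : ℝ) - 2 ^ 48 * c1| ≤ 16)
    (b0 : c0N ≤ 2 ^ 50) (b1 : c1N ≤ 2 ^ 50) (hu : Cv x0 s u)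
    (hxr : |x0 - xc| ≤ (X.xr : ℝ) / 2 ^ 16) (hx0 : |x0| ≤ 2)
    (s0 : (k0.i : ℝ) / 2048 ≤ s) (s1 : s ≤ (k1.i : ℝ) / 2048) :
    0 < (((((g.gr : ℤ) - 2 ^ 20 : ℤ) : ℂ) + (((g.gi : ℤ) - 2 ^ 20 : ℤ) : ℂ) * I) *
      ((c0 : ℂ) + c1 * (s * u))).re := by
  unfold KT.dnO at hc
  simp only [andB_iff] at hc
  obtain ⟨p0, p1⟩ := hc
  have hR := sgn_rep g.gr
  have hI := sgn_rep g.gi
  have aR : |(g.gr : ℤ) - 2 ^ 20| ≤ 2 ^ 20 := by
    rw [abs_le]; constructor <;> omega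
  have aI : |(g.gi : ℤ) - 2 ^ 20| ≤ 2 ^ 20 := by
    rw [abs_le]; constructor <;> omega
  generalize (g.gr : ℤ) - 2 ^ 20 = a at *
  generalize (g.gi : ℤ) - 2 ^ 20 = b at *
  have hax : (X.x : ℝ) / 2 ^ 16 ≤ 2 := by
    rw [div_le_iff₀ (by positivity)]
    have : (X.x : ℝ) ≤ 2 ^ 17 := by exact_mod_cast hx2
    linarith
  have bi1 : k1.i ≤ 256 := by
    have := (h1.bd).2.2
    rw [abs_of_nonneg (by positivity)] at this
    exact_mod_cast this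
  have bi : k1.i - k0.i ≤ 256 := by omega
  have hdE := dE_le hx2 bi
  have hdX : KT.dX X.xr k1.i ≤ 2 ^ 58 := by
    simp only [KT.dX]
    show X.xr * (k1.i * k1.i) * _ ≤ _
    have h1 : k1.i * k1.i ≤ 256 * 256 := Nat.mul_le_mul bi1 bi1
    have h2 := Nat.mul_le_mul hr2 h1
    omega
  obtain ⟨D, hD⟩ : ∃ D, D = Nat.add (Nat.mul 1770887431076116955136
    (Nat.add (KN.dE X.x (Nat.sub k1.i k0.i)) (KT.dX X.xr k1.i))) KN.p92 := ⟨_, rfl⟩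
  have eD : D = 1770887431076116955136 * (KN.dE X.x (k1.i - k0.i) + KT.dX X.xr k1.i) +
      2 ^ 92 := by
    rw [hD, p92_eq]; rfl
  have hrep : ∀ k, Rp (KT.dnv X c0N c1N (KN.sgn g.gr) (KN.sgn g.gi) k0 k1 k)
      (dnz D c0N c1N a b k) := by
    intro k
    rw [hD]
    exact dnvT_rep X k0 k1 c0N c1N hR hI k
  clear hD
  have aD : |(-1 : ℤ) * (D : ℤ)| ≤ 2 ^ 130 := by
    rw [abs_mul, abs_neg, abs_one, one_mul, abs_of_nonneg (by positivity), eD]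
    push_cast
    have h5 : ((KN.dE X.x (k1.i - k0.i) : ℕ) : ℤ) ≤ 2 ^ 57 := by exact_mod_cast hdE
    have h6 : ((KT.dX X.xr k1.i : ℕ) : ℤ) ≤ 2 ^ 58 := by exact_mod_cast hdX
    norm_num at *
    linarith
  have bc0 : |(c0N : ℤ)| ≤ 2 ^ 50 := by
    rw [abs_of_nonneg (by positivity)]; exact_mod_cast b0
  have bc1 : |(c1N : ℤ)| ≤ 2 ^ 50 := by
    rw [abs_of_nonneg (by positivity)]; exact_mod_cast b1
  have node : ∀ (k : KN.Nd) (w : ℂ), NdR xc k w →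
      KN.pos (KT.dnv X c0N c1N (KN.sgn g.gr) (KN.sgn g.gi) k0 k1 k) = true →
      (D : ℝ) ≤ Vn k (a * c0N) 0 0 0 0 ((((a : ℂ) + (b : ℂ) * I)) * (c1N / 2 : ℝ)) 0 := by
    intro k w hk hp
    have hz := pos_sound (hrep k) (by
      have h1 := abs_add2 (abs_add2 (abs_mul_le aR (abs_add2
        (abs_mul_le bc0 (show |(2 : ℤ) ^ 62| ≤ 2 ^ 62 by norm_num))
        (abs_mul_le bc1 (zer_bd hk)))) (abs_mul_le aI (abs_mul_le bc1 (zei_bd hk)))) aD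
      exact h1.trans (by decide +kernel)) hp
    rw [Vn_reg]
    have e1 : ((((a : ℂ) + (b : ℂ) * I)) * ((c1N / 2 : ℝ) : ℂ)).re = a * (c1N / 2) := by
      rw [mul_comm, re_ofReal_mul]
      simp
      ring
    have e2 : ((((a : ℂ) + (b : ℂ) * I)) * ((c1N / 2 : ℝ) : ℂ)).im = b * (c1N / 2) := by
      rw [mul_comm, im_ofReal_mul]
      simp
      ring
    rw [e1, e2]
    have hz' : ((0 : ℤ) : ℝ) < ((dnz D c0N c1N a b k : ℤ) : ℝ) := by exact_mod_cast hz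
    simp only [dnz] at hz'
    push_cast at hz'
    clear p0 p1 hp
    linarith
  have V0 := node k0 u0 h0 p0
  have V1 := node k1 u1 h1 p1
  have hi' : (k0.i : ℝ) / 2048 < (k1.i : ℝ) / 2048 := by
    have : (k0.i : ℝ) + 1 ≤ k1.i := by exact_mod_cast hi
    linarith
  obtain ⟨t, t0, t1, hs⟩ := exists_t s0 s1 hi'
  have aR' : |(a : ℝ)| ≤ 2 ^ 20 := by
    rw [← Int.cast_abs]; exact_mod_cast aR
  have aI' : |(b : ℝ)| ≤ 2 ^ 20 := by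
    rw [← Int.cast_abs]; exact_mod_cast aI
  have ng : ‖((a : ℂ) + (b : ℂ) * I)‖ ≤ 3 / 2 * 2 ^ 20 := by
    refine nrm_le (by norm_num) ?_
    have e1 : ((a : ℂ) + (b : ℂ) * I).re = a := by simp
    have e2 : ((a : ℂ) + (b : ℂ) * I).im = b := by simp
    rw [e1, e2]
    have h1 := sq_le_sq' (neg_le_of_abs_le aR') (le_of_abs_le aR')
    have h2 := sq_le_sq' (neg_le_of_abs_le aI') (le_of_abs_le aI')
    norm_num at *
    linarith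
  have nq : 2 * ‖(((a : ℂ) + (b : ℂ) * I)) * ((c1N / 2 : ℝ) : ℂ)‖ ≤ 1770887431076116955136 := by
    rw [norm_mul, Complex.norm_real, Real.norm_eq_abs, abs_of_nonneg (by positivity)]
    have h1 : (c1N : ℝ) ≤ 2 ^ 50 := by exact_mod_cast b1
    have h2 := mul_le_mul ng h1 (by positivity) (by norm_num)
    norm_num at *
    linarith
  -- the point of the curve of `xc`
  obtain ⟨z, hz, huz⟩ := cv_near hu hx0 (hx.trans hax)
  have CV := chordV (cs := 0) (c2 := 0) (c3 := 0) (qu := 0) (qg := 0) (nu := 0) (ng := 0)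
    (m2 := 0) (m3 := 0) (c1 := a * c0N) (qe := (((a : ℂ) + (b : ℂ) * I)) * ((c1N / 2 : ℝ) : ℂ))
    h0 h1 hz hx hx2 t0 t1 hs (by omega) (by simp) nq (by simp) (by simp) (by simp)
  have SH := Vv_shift hu huz (c1 := a * c0N) (cs := 0) (c2 := 0) (c3 := 0) (qu := 0)
    (qe := (((a : ℂ) + (b : ℂ) * I)) * ((c1N / 2 : ℝ) : ℂ))
    (qg := 0) (nu := 0) (ng := 0) (by simp) nq (by simp)
  have RX : 2 ^ 62 * (s * (104 / 100 * s * |x0 - xc|) * 1770887431076116955136) ≤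
      (KT.dX X.xr k1.i : ℝ) * 1770887431076116955136 := by
    have e : ((KT.dX X.xr k1.i : ℕ) : ℝ) = X.xr * (k1.i * k1.i) * 17448305 := by
      simp [KT.dX]
    rw [e, ← mul_assoc]
    refine mul_le_mul_of_nonneg_right ?_ (by norm_num)
    have c1 : s * s ≤ (k1.i : ℝ) / 2048 * ((k1.i : ℝ) / 2048) :=
      mul_self_le_mul_self hu.s0 s1
    have c2 : s * s * |x0 - xc| ≤ (k1.i : ℝ) / 2048 * ((k1.i : ℝ) / 2048) * (X.xr / 2 ^ 16) :=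
      mul_le_mul c1 hxr (abs_nonneg _) (by positivity)
    have c3 : (0 : ℝ) ≤ X.xr * (k1.i * k1.i) := by positivity
    have c4 : (k1.i : ℝ) / 2048 * ((k1.i : ℝ) / 2048) * (X.xr / 2 ^ 16) =
        X.xr * (k1.i * k1.i) / 2 ^ 38 := by ring
    rw [c4] at c2
    have c5 : 2 ^ 62 * (s * (104 / 100 * s * |x0 - xc|)) =
        2 ^ 62 * (104 / 100) * (s * s * |x0 - xc|) := by ring
    rw [c5]
    have c6 := mul_le_mul_of_nonneg_left c2 (show (0 : ℝ) ≤ 2 ^ 62 * (104 / 100) by positivity)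
    refine c6.trans ?_
    generalize (X.xr : ℝ) * (k1.i * k1.i) = g at c3
    linarith
  have A0 := mul_le_mul_of_nonneg_left V0 (sub_nonneg.2 t1)
  have A1 := mul_le_mul_of_nonneg_left V1 t0
  have SH' := mul_le_mul_of_nonneg_left SH (show (0 : ℝ) ≤ 2 ^ 62 by positivity)
  have Dr : (D : ℝ) = 1770887431076116955136 * ((KN.dE X.x (k1.i - k0.i) : ℝ) +
      KT.dX X.xr k1.i) + 2 ^ 92 := by
    rw [eD]; push_cast; ring
  simp only [mul_zero, zero_add, add_zero] at CV SH'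
  generalize Vn k0 (a * c0N) 0 0 0 0 ((((a : ℂ) + (b : ℂ) * I)) * ((c1N / 2 : ℝ) : ℂ)) 0 = W0
    at *
  generalize Vn k1 (a * c0N) 0 0 0 0 ((((a : ℂ) + (b : ℂ) * I)) * ((c1N / 2 : ℝ) : ℂ)) 0 = W1
    at *
  have key : (2 : ℝ) ^ 92 ≤ 2 ^ 62 * Vv s u (a * c0N) 0 0 0 0
      ((((a : ℂ) + (b : ℂ) * I)) * ((c1N / 2 : ℝ) : ℂ)) 0 := by
    linarith
  have e4 : Vv s u (a * c0N) 0 0 0 0 ((((a : ℂ) + (b : ℂ) * I)) * ((c1N / 2 : ℝ) : ℂ)) 0 =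
      (((a : ℂ) + (b : ℂ) * I) * ((c0N : ℂ) + c1N * (s * u))).re := by
    have e5 : (s : ℂ) * u * ((((a : ℂ) + (b : ℂ) * I)) * ((c1N / 2 : ℝ) : ℂ)) =
        ((1 / 2 : ℝ) : ℂ) * (((a : ℂ) + (b : ℂ) * I) * (c1N * (s * u))) := by
      push_cast; ring
    have e6 : (((a : ℂ) + (b : ℂ) * I) * (c0N : ℂ)).re = a * c0N := by
      simp
    simp only [Vv, mul_zero, zero_re, add_zero]
    rw [e5, re_ofReal_mul, mul_add, add_re, e6]
    ring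
  have e7 : (((a : ℂ) + (b : ℂ) * I) * ((c0N : ℂ) + c1N * (s * u))).re -
      2 ^ 48 * (((a : ℂ) + (b : ℂ) * I) * ((c0 : ℂ) + c1 * (s * u))).re ≤
      (3 / 2 * 2 ^ 20) * 32 := by
    have e8 : 2 ^ 48 * (((a : ℂ) + (b : ℂ) * I) * ((c0 : ℂ) + c1 * (s * u))).re =
        (((a : ℂ) + (b : ℂ) * I) * (((2 ^ 48 * c0 : ℝ) : ℂ) + ((2 ^ 48 * c1 : ℝ) : ℂ) *
          (s * u))).re := by
      have e12 := re_ofReal_mul ((2 : ℝ) ^ 48) (((a : ℂ) + (b : ℂ) * I) * ((c0 : ℂ) + c1 * (s * u)))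
      rw [← e12]
      refine congrArg Complex.re ?_
      rw [ofReal_mul, ofReal_mul]
      generalize (((2 : ℝ) ^ 48 : ℝ) : ℂ) = z
      ring
    rw [e8]
    refine re_near9 ng ?_
    have e9 : (c0N : ℂ) + c1N * (s * u) - (((2 ^ 48 * c0 : ℝ) : ℂ) + ((2 ^ 48 * c1 : ℝ) : ℂ) *
        (s * u)) = (((c0N : ℝ) - 2 ^ 48 * c0 : ℝ) : ℂ) + (((c1N : ℝ) - 2 ^ 48 * c1 : ℝ) : ℂ) *
        (s * u) := by
      push_cast; ring
    rw [e9]
    refine (norm_add_le _ _).trans ?_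
    rw [norm_mul, norm_mul, Complex.norm_real, Complex.norm_real, Complex.norm_real,
      Real.norm_eq_abs, Real.norm_eq_abs, Real.norm_eq_abs, abs_of_nonneg hu.s0, hu.norm]
    have h1 := mul_le_mul hc1 hu.s1 hu.s0 (by norm_num)
    rw [mul_one]
    exact (add_le_add hc0 h1).trans (by norm_num)
  rw [e4] at key
  have e10 : (2 : ℝ) ^ 30 ≤ (((a : ℂ) + (b : ℂ) * I) * ((c0N : ℂ) + c1N * (s * u))).re := by
    have : (2 : ℝ) ^ 62 * 2 ^ 30 = 2 ^ 92 := by norm_num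
    rw [← this] at key
    exact le_of_mul_le_mul_left key (by positivity)
  have e11 : (0 : ℝ) < 2 ^ 48 * (((a : ℂ) + (b : ℂ) * I) * ((c0 : ℂ) + c1 * (s * u))).re := by
    norm_num at *
    linarith
  exact (pos_iff_pos_of_mul_pos e11).1 (by positivity)

end

/-! ### the direction on a box -/

/-- `k g` and `2 h` -/
def dR0 (o : Bool) (k h g : ℝ) : ℝ := if o then 2 * h else k * g
def dR1 (o : Bool) (k h g : ℝ) : ℝ := if o then k * g else 2 * h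

theorem near2 {a : ℕ} {v : ℝ} (h : |(a : ℝ) - 2 ^ 48 * v| ≤ 1) :
    |((Nat.mul 2 a : ℕ) : ℝ) - 2 ^ 48 * (2 * v)| ≤ 16 := by
  have e : ((Nat.mul 2 a : ℕ) : ℝ) = 2 * a := by
    have : Nat.mul 2 a = 2 * a := rfl
    rw [this]; push_cast; ring
  rw [e]
  rw [abs_le] at h ⊢
  constructor <;> linarith [h.1, h.2]

theorem nearmu {a c : ℕ} {v w : ℝ} (h : |(a : ℝ) - 2 ^ 48 * v| ≤ 1)
    (g : |(c : ℝ) - 2 ^ 48 * w| ≤ 1) (ha : a ≤ 2 ^ 49) (hc : c ≤ 2 ^ 49) :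
    |((KN.mu a c : ℕ) : ℝ) - 2 ^ 48 * (v * w)| ≤ 16 := by
  have m1 := mu_le_real a c
  have m2 := le_mu_real a c
  have ha' : (a : ℝ) ≤ 2 ^ 49 := by exact_mod_cast ha
  have hc' : (c : ℝ) ≤ 2 ^ 49 := by exact_mod_cast hc
  have a0 : (0 : ℝ) ≤ a := Nat.cast_nonneg _
  have c0 : (0 : ℝ) ≤ c := Nat.cast_nonneg _
  rw [abs_le] at h g
  generalize (a : ℝ) = A at *
  generalize (c : ℝ) = C at *
  generalize ((KN.mu a c : ℕ) : ℝ) = M at *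
  -- v = (A - d) / 2^48
  obtain ⟨d, hd⟩ : ∃ d, d = A - 2 ^ 48 * v := ⟨_, rfl⟩
  obtain ⟨f, hf⟩ : ∃ f, f = C - 2 ^ 48 * w := ⟨_, rfl⟩
  rw [← hd] at h
  rw [← hf] at g
  have ev : 2 ^ 48 * v = A - d := by linarith
  have ew : 2 ^ 48 * w = C - f := by linarith
  have e : 2 ^ 48 * (2 ^ 48 * (v * w)) = A * C - (A * f + C * d) + d * f := by
    have : 2 ^ 48 * (2 ^ 48 * (v * w)) = (2 ^ 48 * v) * (2 ^ 48 * w) := by ring
    rw [this, ev, ew]; ring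
  have b1 : |A * f + C * d| ≤ 2 ^ 50 := by
    have h1 : |A * f| ≤ 2 ^ 49 := by
      rw [abs_mul, abs_of_nonneg a0]
      have : |f| ≤ 1 := abs_le.2 g
      calc A * |f| ≤ 2 ^ 49 * 1 := mul_le_mul ha' this (abs_nonneg _) (by positivity)
        _ = 2 ^ 49 := mul_one _
    have h2 : |C * d| ≤ 2 ^ 49 := by
      rw [abs_mul, abs_of_nonneg c0]
      have : |d| ≤ 1 := abs_le.2 h
      calc C * |d| ≤ 2 ^ 49 * 1 := mul_le_mul hc' this (abs_nonneg _) (by positivity)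
        _ = 2 ^ 49 := mul_one _
    calc |A * f + C * d| ≤ |A * f| + |C * d| := abs_add_le _ _
      _ ≤ 2 ^ 50 := by linarith
  have b2 : |d * f| ≤ 1 := by
    rw [abs_mul]
    have h1 : |f| ≤ 1 := abs_le.2 g
    have h2 : |d| ≤ 1 := abs_le.2 h
    calc |d| * |f| ≤ 1 * 1 := mul_le_mul h2 h1 (abs_nonneg _) (by norm_num)
      _ = 1 := mul_one _
  rw [abs_le] at b1 b2
  generalize A * f + C * d = P at *
  generalize d * f = Q at *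
  generalize A * C = S at *
  generalize v * w = V at *
  rw [abs_le]
  constructor
  · refine le_of_mul_le_mul_left ?_ (show (0 : ℝ) < 2 ^ 48 by positivity)
    linarith
  · refine le_of_mul_le_mul_left ?_ (show (0 : ℝ) < 2 ^ 48 by positivity)
    linarith

theorem near_dc0 {o : Bool} {a b c : ℕ} {k h g : ℝ} (hk : |(a : ℝ) - 2 ^ 48 * k| ≤ 1)
    (hh : |(b : ℝ) - 2 ^ 48 * h| ≤ 1) (hg : |(c : ℝ) - 2 ^ 48 * g| ≤ 1) (ha : a ≤ 2 ^ 49)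
    (hb : b ≤ 2 ^ 49) (hc : c ≤ 2 ^ 49) :
    |((KN.dc0 o a b c : ℕ) : ℝ) - 2 ^ 48 * dR0 o k h g| ≤ 16 ∧
      |((KN.dc1 o a b c : ℕ) : ℝ) - 2 ^ 48 * dR1 o k h g| ≤ 16 ∧
      KN.dc0 o a b c ≤ 2 ^ 50 ∧ KN.dc1 o a b c ≤ 2 ^ 50 := by
  have m : KN.mu a c ≤ 2 ^ 50 := by
    rw [Pool.Agent.Helper94.CXT.mu_eq]
    have h1 : a * c ≤ 2 ^ 49 * 2 ^ 49 := Nat.mul_le_mul ha hc
    have h2 := Nat.div_le_div_right (c := 2 ^ 48) h1
    exact h2.trans (by norm_num)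
  have m2 : Nat.mul 2 b ≤ 2 ^ 50 := by
    have : Nat.mul 2 b = 2 * b := rfl
    rw [this]; omega
  cases o
  · exact ⟨nearmu hk hg ha hc, near2 hh, m, m2⟩
  · exact ⟨near2 hh, nearmu hk hg ha hc, m2, m⟩

/-- affine functions -/
theorem aff_pos {t a b : ℝ} (ht : I01 t) (ha : 0 < a) (hb : 0 < b) :
    0 < (1 - t) * a + t * b := by
  rcases ht.1.eq_or_lt with h | h
  · rw [← h]; linarith
  · have h1 := mul_pos h hb
    have h2 := mul_nonneg (show 0 ≤ 1 - t by linarith [ht.2]) ha.le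
    linarith

def dRe (o : Bool) (G e : ℂ) (k h g : ℝ) : ℝ :=
  (G * ((dR0 o k h g : ℂ) + dR1 o k h g * e)).re

theorem dRe_eq (o : Bool) (G e : ℂ) (k h g : ℝ) : dRe o G e k h g =
    (if o then 2 * h * G.re + k * g * (G * e).re else k * g * G.re + 2 * h * (G * e).re) := by
  have e1 : G * ((dR0 o k h g : ℂ) + dR1 o k h g * e) =
      (dR0 o k h g : ℂ) * G + (dR1 o k h g : ℂ) * (G * e) := by ring
  rw [dRe, e1, add_re, re_ofReal_mul, re_ofReal_mul]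
  cases o <;> simp [dR0, dR1]

theorem dRe_pos {o : Bool} {G e : ℂ} {k k0 k1 t1 h h0 h1 t2 g g0 g1 t3 : ℝ} (i1 : I01 t1)
    (i2 : I01 t2) (i3 : I01 t3) (ek : k = (1 - t1) * k0 + t1 * k1)
    (eh : h = (1 - t2) * h0 + t2 * h1) (eg : g = (1 - t3) * g0 + t3 * g1)
    (H : ∀ c1 c2 c3 : Bool, 0 < dRe o G e (if c1 then k1 else k0) (if c2 then h1 else h0)
      (if c3 then g1 else g0)) : 0 < dRe o G e k h g := by
  have A3 : ∀ a b x y t : ℝ, dRe o G e a b ((1 - t) * x + t * y) =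
      (1 - t) * dRe o G e a b x + t * dRe o G e a b y := by
    intro a b x y t
    simp only [dRe_eq]
    cases o <;> simp <;> ring
  have A2 : ∀ a b x y t : ℝ, dRe o G e a ((1 - t) * x + t * y) b =
      (1 - t) * dRe o G e a x b + t * dRe o G e a y b := by
    intro a b x y t
    simp only [dRe_eq]
    cases o <;> simp <;> ring
  have A1 : ∀ a b x y t : ℝ, dRe o G e ((1 - t) * x + t * y) a b =
      (1 - t) * dRe o G e x a b + t * dRe o G e y a b := by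
    intro a b x y t
    simp only [dRe_eq]
    cases o <;> simp <;> ring
  have B : ∀ c1 c2 : Bool, 0 < dRe o G e (if c1 then k1 else k0) (if c2 then h1 else h0) g := by
    intro c1 c2
    rw [eg, A3]
    exact aff_pos i3 (by simpa using H c1 c2 false) (by simpa using H c1 c2 true)
  have C : ∀ c1 : Bool, 0 < dRe o G e (if c1 then k1 else k0) h g := by
    intro c1
    rw [eh, A2]
    exact aff_pos i2 (by simpa using B c1 false) (by simpa using B c1 true)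
  rw [ek, A1]
  exact aff_pos i1 (by simpa using C false) (by simpa using C true)

theorem InV.le {a b : ℕ} {v : ℝ} (h : InV a b v) : a ≤ b := by
  rcases h with h | h
  · exact h.1.le
  · exact_mod_cast h.1.trans h.2

/-- THE DIRECTION ON A BOX -/
theorem dnB_sound {xc x0 s : ℝ} {u u0 u1 : ℂ} {X : KT.Cx} (hx : |xc| ≤ (X.x : ℝ) / 2 ^ 16)
    (hx2 : X.x ≤ 2 ^ 17) (hr2 : X.xr ≤ 2 ^ 17) {k0 k1 : KN.Nd} (n0 : NdR xc k0 u0)
    (n1 : NdR xc k1 u1) {sg : KT.Sg} {o : Bool} {b : KT.Bx} {k h g R : ℝ} (hb : Rg b)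
    (hi : InB b k h g R) (hc : KT.dnB X o b k0 k1 sg = true) (hu : Cv x0 s u)
    (hxr : |x0 - xc| ≤ (X.xr : ℝ) / 2 ^ 16) (hx0 : |x0| ≤ 2)
    (s0 : (k0.i : ℝ) / 2048 ≤ s) (s1 : s ≤ (k1.i : ℝ) / 2048) :
    sg.gr ≤ 2097152 ∧ sg.gi ≤ 2097152 ∧ k0.i + 1 ≤ k1.i ∧
    0 < dRe o ((((sg.gr : ℤ) - 2 ^ 20 : ℤ) : ℂ) + (((sg.gi : ℤ) - 2 ^ 20 : ℤ) : ℂ) * I) (s * u)
      k h g := by
  unfold KT.dnB at hc
  simp only [andB_iff] at hc
  obtain ⟨⟨g1, g2, g3⟩, hc⟩ := hc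
  have g1 : sg.gr ≤ KT.o21 := Nat.le_of_ble_eq_true g1
  have g2 : sg.gi ≤ KT.o21 := Nat.le_of_ble_eq_true g2
  have g3 : k0.i + 1 ≤ k1.i := Nat.le_of_ble_eq_true g3
  rw [o21_eq] at g1 g2
  refine ⟨g1, g2, g3, ?_⟩
  obtain ⟨ka, kb, t1, E1⟩ := ends_of (r := 1) (by norm_num) hi.v1
  obtain ⟨ha, hb', t2, E2⟩ := ends_of (r := 1) (by norm_num) hi.v2
  obtain ⟨ga, gb, t3, E3⟩ := ends_of (r := 1) (by norm_num) hi.v3
  refine dRe_pos E1.I E2.I E3.I E1.e E2.e E3.e fun c1 c2 c3 => ?_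
  obtain ⟨i, hi'⟩ := cor_sound hc c1 c2 c3
  have near : ∀ {a b : ℕ} {v v0 v1 t : ℝ} (_ : Ends 1 a b v v0 v1 t) (c : Bool),
      |((sl a b c : ℕ) : ℝ) - 2 ^ 48 * (if c then v1 else v0)| ≤ 1 := by
    intro a b v v0 v1 t E c
    cases c
    · exact E.n0
    · exact E.n1
  have le : ∀ {a b : ℕ} (_ : a ≤ b) (_ : b ≤ 2 ^ 49) (c : Bool), sl a b c ≤ 2 ^ 49 := by
    intro a b h1 h2 c
    cases c
    · exact h1.trans h2
    · exact h2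
  obtain ⟨q0, q1, q2, q3⟩ := near_dc0 (o := o) (near E1 c1) (near E2 c2) (near E3 c3)
    (le hb.c1 hb.b1 c1) (le hb.c2 hb.b2 c2) (le hb.c3 hb.b3 c3)
  exact dnT_sound hx hx2 hr2 n0 n1 g1 g2 g3 hi' q0 q1 q2 q3 hu hxr hx0 s0 s1

/-! ### a list of segments -/

theorem c138_rep : Rp KT.c138 (-2 ^ 138) := by
  unfold Rp Pool.Agent.Helper17.PAK.Rep Int.ModEq
  decide +kernel

theorem srcN_rp (K : ℕ) : RH (KT.srcN K) (GR.smH (-2 ^ 138) (decz K)) :=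
  smH_rep c138_rep (dec_rep K)

theorem FamS {dv : KT.Bx → KT.Bx} {T : ℝ → ℝ → ℝ → P9} {F : ℕ → ℕ → ℕ → KT.MP} {c1 c2 c3 : ℕ}
    (hF : FamP dv T F c1 c2 c3) {b : KT.Bx} (hb : Rg b) {k h g R : ℝ} (hi : InB b k h g R) :
    KT.dT c1 c2 c3 (dv b) ≤ 2 ^ 54 ∧ ∃ Z : Bool → Bool → Bool → M9 ℤ × M9 ℤ,
      CorP (dv b) (fun v1 v2 v3 => KT.slT (F v1 v2 v3)) (fun c1 c2 c3 => slZ (Z c1 c2 c3)) ∧
      NearP (KT.dT c1 c2 c3 (dv b)) (slP 64 (T k h g)) (fun c1 c2 c3 => slZ (Z c1 c2 c3)) := by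
  obtain ⟨h1, Z, h2, h3⟩ := hF b hb k h g R hi
  exact ⟨h1, Z, fun c1 c2 c3 => slT_rp (h2 c1 c2 c3), near_sl h3⟩

/-- the segments -/
def lsR (X : KT.Cx) (o : Bool) (S : Hm ℕ) (F : ℕ → ℕ → ℕ → KT.MP) (c1 c2 c3 : ℕ)
    (dv : KT.Bx → KT.Bx) (b : KT.Bx) (l : List KT.Sg) : KN.Nd → Bool :=
  List.rec (motive := fun _ => KN.Nd → Bool) (fun k => Nat.beq k.i X.e)
    (fun g _ ih k => KN.andB (KT.dnB X o b k (KN.nthN X.ns g.p) g)
      (KN.andB (KT.leafP ⟨X.ns, X.x, X.xr, k, (KN.nthN X.ns g.p).i⟩ (nat_lit 0) KT.o21 (KT.kgS g)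
        S (fun v1 v2 v3 => KT.slT (F v1 v2 v3)) c1 c2 c3 (dv b) g.t)
        (ih (KN.nthN X.ns g.p)))) l

theorem lsR_sound (bP : BoxP) {xc x0 s : ℝ} {u : ℂ} {X : KT.Cx} (hX : CxOk xc X)
    (hI : InX xc X x0 s u) {K : ℕ}
    {o : Bool} {dv : KT.Bx → KT.Bx} {T : ℝ → ℝ → ℝ → P9} {F : ℕ → ℕ → ℕ → KT.MP} {c1 c2 c3 : ℕ}
    (hF : FamP dv T F c1 c2 c3) {b : KT.Bx} (hb : Rg b) {k h g R : ℝ} (hi : InB b k h g R) :
    ∀ (l : List KT.Sg) (n : KN.Nd), Ndd xc n → lsR X o (KT.srcN K) F c1 c2 c3 dv b l n = true →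
      n.i < X.e → (n.i : ℝ) / 2048 ≤ s →
      ∀ y : Fin 3 → ℂ, y ≠ 0 → 0 ≤ hev (rH (decz K)) y →
        ∃ G : ℂ, 0 < (G * (ap (T k h g) (s * u) y 0 * conj (y 0))).re ∧
          0 < dRe o G (s * u) k h g := by
  intro l
  induction l with
  | nil =>
    intro n _ hl hlt
    have hl' : Nat.beq n.i X.e = true := hl
    rw [Nat.beq_eq] at hl'
    omega
  | cons sg l ih =>
    intro n hn hl hlt s0 y hy hK
    have hl' : KN.andB (KT.dnB X o b n (KN.nthN X.ns sg.p) sg)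
      (KN.andB (KT.leafP ⟨X.ns, X.x, X.xr, n, (KN.nthN X.ns sg.p).i⟩ (nat_lit 0) KT.o21
        (KT.kgS sg) (KT.srcN K) (fun v1 v2 v3 => KT.slT (F v1 v2 v3)) c1 c2 c3 (dv b) sg.t)
        (lsR X o (KT.srcN K) F c1 c2 c3 dv b l (KN.nthN X.ns sg.p))) = true := hl
    simp only [andB_iff] at hl'
    obtain ⟨a, p, c⟩ := hl'
    have hd := a
    unfold KT.dnB at hd
    simp only [andB_iff] at hd
    have hlt' : n.i + 1 ≤ (KN.nthN X.ns sg.p).i := Nat.le_of_ble_eq_true hd.1.2.2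
    have hm := hX.ns _ (nthN_lt (Nat.lt_of_succ_le hlt'))
    rcases le_or_gt s ((KN.nthN X.ns sg.p).i / 2048 : ℝ) with h2 | h2
    · obtain ⟨u0, h0⟩ := hn
      obtain ⟨u1, h1⟩ := hm
      obtain ⟨g1, g2, _, D⟩ := dnB_sound hX.hx hX.hx2 hX.hr2 h0 h1 hb hi a hI.cv hI.x1 hI.x2 s0 h2
      obtain ⟨hdT, Z, hC, hN⟩ := FamS hF hb hi
      have aR : |(sg.gr : ℤ) - 2 ^ 20| ≤ 2 ^ 20 := by
        rw [abs_le]; constructor <;> omega
      have aI : |(sg.gi : ℤ) - 2 ^ 20| ≤ 2 ^ 20 := by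
        rw [abs_le]; constructor <;> omega
      have bR : |(sg.gr : ℤ) - 2 ^ 20| ≤ 2 ^ 27 := aR.trans (by norm_num)
      have bI : |-((sg.gi : ℤ) - 2 ^ 20)| ≤ 2 ^ 27 := by
        rw [abs_neg]; exact aI.trans (by norm_num)
      have z : |(0 : ℤ)| ≤ 2 ^ 27 := by norm_num
      have M := bP (X := ⟨X.ns, X.x, X.xr, n, (KN.nthN X.ns sg.p).i⟩) (xc := xc) (x0 := x0)
        (Kz := decz K) ⟨hX.hx, hX.hx2, hX.hr2, hX.ns, ⟨u0, h0⟩, Nat.lt_of_succ_le hlt'⟩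
        ⟨hI.cv, hI.x1, hI.x2, s0, h2⟩ (kgS_rep sg) ⟨z, z, z, bR, bI, z, z, z, z⟩ (srcN_rp K)
        (dec_bd K) (by norm_num) (by rw [o21_eq]; norm_num) (frz_kg aR aI) (lam_kg _ _ Z) hC hN
        hdT p y hy hK
      rw [hev_kg, (ap_sl _ _ _ _).1, (ap_sl _ _ _ _).2] at M
      refine ⟨_, ?_, D⟩
      have e : ((((sg.gr : ℤ) - 2 ^ 20 : ℤ) : ℂ) + (((sg.gi : ℤ) - 2 ^ 20 : ℤ) : ℂ) * I) *
          (ap (T k h g) (s * u) y 0 * conj (((64 : ℝ) : ℂ) * y 0)) = ((64 : ℝ) : ℂ) *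
          (((((sg.gr : ℤ) - 2 ^ 20 : ℤ) : ℂ) + (((sg.gi : ℤ) - 2 ^ 20 : ℤ) : ℂ) * I) *
          (ap (T k h g) (s * u) y 0 * conj (y 0))) := by
        rw [map_mul, conj_ofReal]; ring
      rw [e, re_ofReal_mul] at M
      linarith
    · refine ih _ hm c ?_ h2.le y hy hK
      have : ((KN.nthN X.ns sg.p).i : ℝ) / 2048 < (X.e : ℝ) / 2048 := lt_of_lt_of_le h2 hI.s1
      have : ((KN.nthN X.ns sg.p).i : ℝ) < X.e := by linarith
      exact_mod_cast this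

theorem dRe_dn {o : Bool} {G e : ℂ} {k h g : ℝ} (hk : 0 < k) (hg : 0 < g) :
    dRe o G e k h g = (k * g) * (G * dn o (lamF k h g) e).re := by
  have k0 : (k : ℂ) ≠ 0 := by exact_mod_cast hk.ne'
  have g0 : (g : ℂ) ≠ 0 := by exact_mod_cast hg.ne'
  have e1 : (dR0 o k h g : ℂ) + dR1 o k h g * e = ((k * g : ℝ) : ℂ) * dn o (lamF k h g) e := by
    cases o
    · simp only [dR0, dR1, dn, lamF, Bool.false_eq_true, if_false]
      push_cast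
      field_simp
    · simp only [dR0, dR1, dn, lamF, if_true]
      push_cast
      field_simp
  rw [dRe, e1, ← re_ofReal_mul]
  congr 1
  ring

/-- SLITS ON A TREE OF BOXES -/
theorem lS_sound (bP : BoxP) {xc x0 s : ℝ} {u : ℂ} {X : KT.Cx} (hX : CxOk xc X)
    (hI : InX xc X x0 s u) {K : ℕ} {o : Bool} {dv : KT.Bx → KT.Bx} {T : ℝ → ℝ → ℝ → P9}
    {F : ℕ → ℕ → ℕ → KT.MP} {c1 c2 c3 : ℕ} (hF : FamP dv T F c1 c2 c3) {b : KT.Bx} (hb : Rg b)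
    {k h g R : ℝ} (hi : InB b k h g R) (hk : 0 < k) (hg : 0 < g) {t : KT.Tr (List KT.Sg)}
    (ht : KC.lS X o K F c1 c2 c3 dv t b = true) :
    Sl (rH (decz K)) (T k h g) (dn o (lamF k h g) (s * u)) (s * u) := by
  intro y hy hK
  have hy' : y ≠ 0 := fun h0 => hy (by rw [h0]; rfl)
  obtain ⟨b', l, hl, G⟩ := trev_sound t ht hb.or hi
  obtain ⟨w, w1, w2⟩ := lsR_sound bP hX hI hF (hb.sub G.sub) G.inb l X.k hX.st hl hX.lt hI.s0 y
    hy' hK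
  refine ⟨w, w1, ?_⟩
  rw [dRe_dn hk hg] at w2
  exact ((pos_iff_pos_of_mul_pos w2).1 (mul_pos hk hg)).le

/-- scaling of the matrices -/
theorem sl_cmb {K : Hm ℝ} {T : P9} {w : ℝ} (hw : 0 < w) {d e : ℂ}
    (h : Sl K (cmb w T 0 T) d e) : Sl K T d e := by
  intro y hy hK
  obtain ⟨G, h1, h2⟩ := h y hy hK
  refine ⟨G, ?_, h2⟩
  have e0 : ap (cmb w T 0 T) e y 0 = (w : ℂ) * ap T e y 0 := by
    rw [ap_eq, ap_eq]
    simp only [Pi.add_apply, Pi.smul_apply, ap1_0, cmb, cm1, smul_eq_mul]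
    push_cast
    ring
  rw [e0] at h1
  have e1 : G * ((w : ℂ) * ap T e y 0 * conj (y 0)) = (w : ℂ) * (G * (ap T e y 0 * conj (y 0))) := by
    ring
  rw [e1, re_ofReal_mul] at h1
  exact (pos_iff_pos_of_mul_pos h1).1 hw

end Pool.Agent.Helper48.CXT
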